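import Pool.Agent.Ban.Step

set_option autoImplicit false
open Set Filter Topology MeasureTheory
open scoped RealInnerProductSpace ENNReal

namespace Pool.Agent.Ban

noncomputable abbrev mu : Measure ℝ := volume.restrict (Set.Icc (0:ℝ) 1)

instance : IsProbabilityMeasure mu := ⟨by simp [mu]⟩

abbrev HH : Type := Lp ℝ 2 mu

noncomputable def th (t : ℝ) : ℝ := if t < 1/3 then -1 else 1

theorem th_sq (t : ℝ) : th t * th t = 1 := by
  unfold th; split_ifs <;> norm_num

theorem th_abs (t : ℝ) : |th t| = 1 := by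
  unfold th; split_ifs <;> norm_num

theorem th_meas : Measurable th :=
  Measurable.ite measurableSet_Iio measurable_const measurable_const

noncomputable def fl (n : ℕ) (t : ℝ) : ℕ := ⌊(2:ℝ)^n * t⌋₊

theorem fl_meas (n : ℕ) : Measurable (fl n) :=
  Nat.measurable_floor.comp (measurable_const.mul measurable_id)

theorem fls_meas (n j : ℕ) : MeasurableSet {t : ℝ | fl n t = j} :=
  (fl_meas n) (measurableSet_singleton j)

theorem fl_succ (n : ℕ) (t : ℝ) : fl (n+1) t / 2 = fl n t := by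
  unfold fl
  rw [← Nat.floor_div_ofNat]
  congr 1
  rw [pow_succ]
  change (2:ℝ)^n * 2 * t / 2 = 2^n * t
  ring

noncomputable def EE (n j : ℕ) (t : ℝ) : ℝ := if fl n t = j then th t else 0

theorem EE_meas (n j : ℕ) : Measurable (EE n j) :=
  Measurable.ite (fls_meas n j) th_meas measurable_const

theorem EE_memLp (n j : ℕ) : MemLp (EE n j) 2 mu := by
  apply MemLp.of_bound (EE_meas n j).aestronglyMeasurable 1
  refine Eventually.of_forall fun t => ?_
  unfold EE
  split_ifs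
  · rw [Real.norm_eq_abs, th_abs]
  · simp

noncomputable def ee (n j : ℕ) : HH := (EE_memLp n j).toLp _

theorem ee_coe (n j : ℕ) : (ee n j : ℝ → ℝ) =ᵐ[mu] EE n j := (EE_memLp n j).coeFn_toLp

theorem EE_ref (n j : ℕ) (t : ℝ) : EE n j t = EE (n+1) (2*j) t + EE (n+1) (2*j+1) t := by
  have h := fl_succ n t
  unfold EE
  by_cases h1 : fl n t = j
  · rw [if_pos h1]
    have : fl (n+1) t = 2*j ∨ fl (n+1) t = 2*j+1 := by omega
    rcases this with h2 | h2
    · rw [if_pos h2, if_neg (by omega)]; simp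
    · rw [if_neg (by omega), if_pos h2]; simp
  · rw [if_neg h1, if_neg (by omega), if_neg (by omega)]; simp

theorem fl_iff {n j : ℕ} {t : ℝ} (ht : 0 ≤ t) :
    fl n t = j ↔ t ∈ Set.Ico ((j:ℝ)/2^n) (((j:ℝ)+1)/2^n) := by
  unfold fl
  have hp : (0:ℝ) < 2^n := by positivity
  rw [Nat.floor_eq_iff (by positivity), mem_Ico, div_le_iff₀ hp, lt_div_iff₀ hp]
  constructor
  · rintro ⟨h1, h2⟩; constructor <;> linarith
  · rintro ⟨h1, h2⟩; constructor <;> linarith

theorem Ico_sub {n j : ℕ} (hj : j < 2^n) :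
    Set.Ico ((j:ℝ)/2^n) (((j:ℝ)+1)/2^n) ⊆ Set.Icc (0:ℝ) 1 := by
  have hp : (0:ℝ) < 2^n := by positivity
  intro t ht
  have h1 : (0:ℝ) ≤ (j:ℝ)/2^n := by positivity
  have h2 : ((j:ℝ)+1)/2^n ≤ 1 := by
    rw [div_le_one hp]; exact_mod_cast hj
  exact ⟨h1.trans ht.1, ht.2.le.trans h2⟩

theorem set_eq {n j : ℕ} (hj : j < 2^n) :
    {t : ℝ | fl n t = j} ∩ Set.Icc (0:ℝ) 1 = Set.Ico ((j:ℝ)/2^n) (((j:ℝ)+1)/2^n) := by
  ext t
  constructor
  · rintro ⟨h1, h2⟩
    exact (fl_iff h2.1).mp h1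
  · intro h
    have := Ico_sub hj h
    exact ⟨(fl_iff this.1).mpr h, this⟩

theorem mu_fl {n j : ℕ} (hj : j < 2^n) : mu.real {t : ℝ | fl n t = j} = ((2:ℝ)^n)⁻¹ := by
  rw [measureReal_def, Measure.restrict_apply (fls_meas n j),
    set_eq hj, Real.volume_Ico]
  have : ((j:ℝ)+1)/2^n - (j:ℝ)/2^n = ((2:ℝ)^n)⁻¹ := by ring
  rw [this, ENNReal.toReal_ofReal (by positivity)]

theorem inner_ee (n j : ℕ) (f : HH) : ⟪ee n j, f⟫ = ∫ t, EE n j t * f t ∂mu := by
  rw [L2.inner_def]
  apply integral_congr_ae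
  filter_upwards [ee_coe n j] with t ht
  rw [ht]
  simp [mul_comm]

theorem dy_ee : Dy ee := by
  constructor
  · intro n j k hj hk
    rw [inner_ee]
    have h1 : ∫ t, EE n j t * (ee n k : ℝ → ℝ) t ∂mu =
        ∫ t, ({t : ℝ | fl n t = j}.indicator (fun _ => if j = k then (1:ℝ) else 0)) t ∂mu := by
      apply integral_congr_ae
      filter_upwards [ee_coe n k] with t ht
      rw [ht]
      unfold EE
      by_cases h1 : fl n t = j
      · rw [if_pos h1, indicator_of_mem (by exact h1)]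
        by_cases h2 : j = k
        · rw [if_pos (h1.trans h2), if_pos h2, th_sq]
        · rw [if_neg (fun h => h2 (h1.symm.trans h)), if_neg h2, mul_zero]
      · rw [if_neg h1, indicator_of_notMem (by exact h1), zero_mul]
    rw [h1, integral_indicator_const _ (fls_meas n j), mu_fl hj]
    split_ifs <;> simp
  · intro n j _
    apply Lp.ext
    filter_upwards [ee_coe n j, ee_coe (n+1) (2*j), ee_coe (n+1) (2*j+1),
      Lp.coeFn_add (ee (n+1) (2*j)) (ee (n+1) (2*j+1))] with t h1 h2 h3 h4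
    rw [h1, h4, Pi.add_apply, h2, h3, EE_ref]

noncomputable def RF (s j : ℕ) (t : ℝ) : ℝ := EE (s+1) (2*j) t - EE (s+1) (2*j+1) t

theorem rr_coe (s j : ℕ) : ((rr ee s j : HH) : ℝ → ℝ) =ᵐ[mu] RF s j := by
  unfold rr RF
  filter_upwards [ee_coe (s+1) (2*j), ee_coe (s+1) (2*j+1),
    Lp.coeFn_sub (ee (s+1) (2*j)) (ee (s+1) (2*j+1))] with t h2 h3 h4
  rw [h4, Pi.sub_apply, h2, h3]

theorem ae_Ico : ∀ᵐ t ∂mu, t ∈ Set.Ico (0:ℝ) 1 := by
  have h1 : ∀ᵐ t ∂mu, t ∈ Set.Icc (0:ℝ) 1 := ae_restrict_mem measurableSet_Icc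
  have h2 : ∀ᵐ t ∂mu, t ≠ 1 := by
    apply ae_restrict_of_ae
    simp [ae_iff, measure_singleton]
  filter_upwards [h1, h2] with t ht ht'
  exact ⟨ht.1, lt_of_le_of_ne ht.2 ht'⟩

/-- completeness of the dyadic system -/
theorem hd_ee (f : HH) (h : ∀ n j, j < 2^n → ⟪ee n j, f⟫ = 0) : f = 0 := by
  let F : ℝ → ℝ := fun t => th t * f t
  have hfint : Integrable (f : ℝ → ℝ) mu := (Lp.memLp f).integrable (by norm_num)
  have hFint : Integrable F mu := by
    apply hfint.bdd_mul (c := 1) th_meas.aestronglyMeasurable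
    exact Eventually.of_forall fun t => by rw [Real.norm_eq_abs, th_abs]
  have hFI : IntegrableOn F (Set.Icc 0 1) volume := hFint
  have hII : IntervalIntegrable F volume 0 1 := by
    rw [intervalIntegrable_iff_integrableOn_Icc_of_le zero_le_one]
    exact hFI
  have hIIsub : ∀ a b : ℝ, 0 ≤ a → a ≤ 1 → 0 ≤ b → b ≤ 1 → IntervalIntegrable F volume a b := by
    intro a b ha ha' hb hb'
    apply hII.mono_set
    rw [uIcc_of_le zero_le_one]
    exact uIcc_subset_Icc ⟨ha, ha'⟩ ⟨hb, hb'⟩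
  have hcell : ∀ n j : ℕ, j < 2^n → ∫ t in ((j:ℝ)/2^n)..(((j:ℝ)+1)/2^n), F t = 0 := by
    intro n j hj
    have hle : (j:ℝ)/2^n ≤ ((j:ℝ)+1)/2^n := by gcongr; linarith
    rw [intervalIntegral.integral_of_le hle, integral_Ioc_eq_integral_Ioo,
      ← integral_Ico_eq_integral_Ioo, ← set_eq hj]
    have h1 := h n j hj
    rw [inner_ee] at h1
    have h2 : ∫ t, EE n j t * f t ∂mu = ∫ t, ({t : ℝ | fl n t = j}.indicator F) t ∂mu := by
      apply integral_congr_ae
      refine Eventually.of_forall fun t => ?_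
      simp only [EE, F]
      by_cases h1 : fl n t = j
      · rw [if_pos h1, indicator_of_mem (by exact h1)]
      · rw [if_neg h1, indicator_of_notMem (by exact h1), zero_mul]
    rw [h2, integral_indicator (fls_meas n j),
      Measure.restrict_restrict (fls_meas n j)] at h1
    exact h1
  have hdy : ∀ n j : ℕ, j ≤ 2^n → ∫ t in (0:ℝ)..((j:ℝ)/2^n), F t = 0 := by
    intro n j
    induction j with
    | zero => intro _; simp
    | succ j ih =>
      intro hj
      have hp : (0:ℝ) < 2^n := by positivity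
      have h1 : (j:ℝ)/2^n ≤ 1 := by
        rw [div_le_one hp]; exact_mod_cast (Nat.le_of_succ_le hj)
      have h2 : ((j:ℝ)+1)/2^n ≤ 1 := by
        rw [div_le_one hp]; exact_mod_cast hj
      rw [Nat.cast_succ, ← intervalIntegral.integral_add_adjacent_intervals
        (hIIsub 0 _ le_rfl zero_le_one (by positivity) h1)
        (hIIsub _ _ (by positivity) h1 (by positivity) h2), ih (Nat.le_of_succ_le hj),
        hcell n j hj, add_zero]
  have hcont : ContinuousOn (fun x => ∫ t in (0:ℝ)..x, F t) (Set.Icc 0 1) := by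
    have := intervalIntegral.continuousOn_primitive_interval (μ := volume) (f := F) (a := 0) (b := 1)
      (by rw [uIcc_of_le zero_le_one]; exact hFI)
    rwa [uIcc_of_le zero_le_one] at this
  have hzero : ∀ x ∈ Set.Icc (0:ℝ) 1, ∫ t in (0:ℝ)..x, F t = 0 := by
    intro x hx
    have hlim : Tendsto (fun n : ℕ => ((fl n x : ℕ) : ℝ)/2^n) atTop (𝓝 x) := by
      have h1 : ∀ n : ℕ, x - 1/2^n ≤ ((fl n x : ℕ) : ℝ)/2^n ∧ ((fl n x : ℕ) : ℝ)/2^n ≤ x := by
        intro n
        have hp : (0:ℝ) < 2^n := by positivity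
        have h2 := Nat.floor_le (show 0 ≤ (2:ℝ)^n * x from mul_nonneg hp.le hx.1)
        have h3 := Nat.lt_floor_add_one ((2:ℝ)^n * x)
        constructor
        · rw [le_div_iff₀ hp]
          unfold fl
          have : (x - 1/2^n) * 2^n = 2^n*x - 1 := by field_simp
          linarith
        · rw [div_le_iff₀ hp]
          unfold fl; linarith
      have h2 : Tendsto (fun n : ℕ => x - 1/(2:ℝ)^n) atTop (𝓝 x) := by
        have : Tendsto (fun n : ℕ => 1/(2:ℝ)^n) atTop (𝓝 0) := by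
          simpa using tendsto_pow_atTop_nhds_zero_of_lt_one (r := (1/2:ℝ)) (by norm_num) (by norm_num)
        simpa using this.const_sub x
      exact tendsto_of_tendsto_of_tendsto_of_le_of_le h2 tendsto_const_nhds
        (fun n => (h1 n).1) (fun n => (h1 n).2)
    have hmem : ∀ n : ℕ, ((fl n x : ℕ) : ℝ)/2^n ∈ Set.Icc (0:ℝ) 1 ∧ fl n x ≤ 2^n := by
      intro n
      have hp : (0:ℝ) < 2^n := by positivity
      have h4 : fl n x ≤ 2^n := by
        unfold fl
        have : (2:ℝ)^n * x ≤ ((2^n : ℕ) : ℝ) := by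
          push_cast
          nlinarith [hx.2]
        exact (Nat.floor_le_floor this).trans (by rw [Nat.floor_natCast])
      refine ⟨⟨by positivity, ?_⟩, h4⟩
      rw [div_le_one hp]; exact_mod_cast h4
    have h5 : Tendsto (fun n : ℕ => ∫ t in (0:ℝ)..(((fl n x : ℕ) : ℝ)/2^n), F t) atTop
        (𝓝 (∫ t in (0:ℝ)..x, F t)) := by
      have := (hcont x hx).tendsto
      exact this.comp (tendsto_nhdsWithin_iff.mpr ⟨hlim, Eventually.of_forall fun n => (hmem n).1⟩)
    have h6 : (fun n : ℕ => ∫ t in (0:ℝ)..(((fl n x : ℕ) : ℝ)/2^n), F t) = fun _ => 0 := by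
      funext n
      exact hdy n _ (hmem n).2
    rw [h6] at h5
    exact tendsto_nhds_unique h5 tendsto_const_nhds |>.symm ▸ rfl
  have hae : ∀ᵐ t ∂mu, F t = 0 := by
    have h1 := hII.ae_hasDerivAt_integral
    have h2 : ∀ᵐ t ∂mu, t ∈ Set.Ico (0:ℝ) 1 := ae_Ico
    have h3 : ∀ᵐ t ∂mu, t ≠ 0 := by
      apply ae_restrict_of_ae
      simp [ae_iff, measure_singleton]
    filter_upwards [ae_restrict_of_ae h1, h2, h3] with t ht ht2 ht3
    have ht0 : t ∈ Set.Ioo (0:ℝ) 1 := ⟨lt_of_le_of_ne ht2.1 (Ne.symm ht3), ht2.2⟩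
    have h4 := ht (by rw [uIcc_of_le zero_le_one]; exact ⟨ht2.1, ht2.2.le⟩) 0
      (by rw [uIcc_of_le zero_le_one]; exact ⟨le_rfl, zero_le_one⟩)
    have h5 : HasDerivAt (fun _ : ℝ => (0:ℝ)) (F t) t := by
      apply h4.congr_of_eventuallyEq
      filter_upwards [Ioo_mem_nhds ht0.1 ht0.2] with x hx
      exact (hzero x ⟨hx.1.le, hx.2.le⟩).symm
    exact h5.unique (hasDerivAt_const t (0:ℝ))
  apply Lp.ext
  filter_upwards [hae, Lp.coeFn_zero ℝ 2 mu] with t ht h0
  rw [h0, Pi.zero_apply]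
  have h7 := th_sq t
  have h8 : th t * f t = 0 := ht
  rcases mul_eq_zero.mp h8 with h9 | h9
  · rw [h9] at h7; norm_num at h7
  · exact h9

end Pool.Agent.Ban
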