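import Pool.Agent.Ban.Dy

set_option autoImplicit false
open Set Filter Topology
open scoped RealInnerProductSpace

namespace Pool.Agent.Ban

variable {H : Type} [NormedAddCommGroup H] [InnerProductSpace ℝ H]
variable {e : ℕ → ℕ → H}

instance finW (n : ℕ) : FiniteDimensional ℝ (W e n) := by
  unfold W
  exact FiniteDimensional.span_of_finite ℝ (Set.finite_range _)

noncomputable def UU (e : ℕ → ℕ → H) (n m : ℕ) : Submodule ℝ H := W e m ⊓ (W e n)ᗮ

instance finUU (n m : ℕ) : FiniteDimensional ℝ (UU e n m) := by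
  unfold UU
  exact Submodule.finiteDimensional_inf_left _ _

theorem UU_mono (he : Dy e) (n : ℕ) {m m' : ℕ} (h : m ≤ m') : UU e n m ≤ UU e n m' :=
  inf_le_inf_right _ (W_mono he h)

theorem proj_mono (he : Dy e) (n : ℕ) {m m' : ℕ} (h : m ≤ m') (q : H) :
    ‖(UU e n m).starProjection q‖ ≤ ‖(UU e n m').starProjection q‖ := by
  have h1 : (UU e n m).starProjection q =
      (UU e n m).starProjection ((UU e n m').starProjection q) := by
    rw [← sub_eq_zero, ← map_sub]
    rw [Submodule.starProjection_apply_eq_zero_iff]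
    have h2 : q - (UU e n m').starProjection q ∈ (UU e n m')ᗮ :=
      Submodule.sub_starProjection_mem_orthogonal q
    exact Submodule.orthogonal_le (UU_mono he n h) h2
  rw [h1]
  exact Submodule.norm_starProjection_apply_le _ _

theorem proj_ne (he : Dy e) (hd : ∀ f : H, (∀ n j, j < 2^n → ⟪e n j, f⟫ = 0) → f = 0)
    (n : ℕ) (q : H) (hq : q ∉ W e n) : ∃ m, (UU e n m).starProjection q ≠ 0 := by
  by_contra hcon
  push Not at hcon
  apply hq
  have hqU : ∀ m, ∀ x ∈ UU e n m, ⟪x, q⟫ = 0 := by
    intro m x hx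
    have := (Submodule.starProjection_apply_eq_zero_iff _).mp (hcon m)
    exact (Submodule.mem_orthogonal _ _).mp this x hx
  have h0 : q - (W e n).starProjection q = 0 := by
    apply hd
    intro m j hj
    set m' := max m n
    have ha : e m j ∈ W e m' := W_mono he (le_max_left m n) (mem_W hj)
    set a := e m j
    have ha1 : a - (W e n).starProjection a ∈ UU e n m' := by
      refine ⟨?_, Submodule.sub_starProjection_mem_orthogonal a⟩
      exact Submodule.sub_mem _ ha (W_mono he (le_max_right m n) (Submodule.starProjection_apply_mem _ _))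
    have hq' : q - (W e n).starProjection q ∈ (W e n)ᗮ :=
      Submodule.sub_starProjection_mem_orthogonal q
    have h1 : ⟪(W e n).starProjection a, q - (W e n).starProjection q⟫ = 0 :=
      (Submodule.mem_orthogonal _ _).mp hq' _ (Submodule.starProjection_apply_mem _ _)
    have h2 : ⟪a - (W e n).starProjection a, q - (W e n).starProjection q⟫ = 0 := by
      rw [inner_sub_right, hqU _ _ ha1]
      have := (Submodule.mem_orthogonal' _ _).mp ha1.2 ((W e n).starProjection q)
        (Submodule.starProjection_apply_mem _ _)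
      rw [this, sub_zero]
    have h3 : a = (W e n).starProjection a + (a - (W e n).starProjection a) := by abel
    rw [h3, inner_add_left, h1, h2, add_zero]
  rw [sub_eq_zero] at h0
  rw [h0]
  exact Submodule.starProjection_apply_mem _ _

theorem exists_delta (he : Dy e) (hd : ∀ f : H, (∀ n j, j < 2^n → ⟪e n j, f⟫ = 0) → f = 0)
    (V : Submodule ℝ H) [FiniteDimensional ℝ V] (hV : ∀ m, ∀ q ∈ V, q ∈ W e m → q = 0) (n : ℕ) :
    ∃ (m₀ : ℕ) (δ : ℝ), 0 < δ ∧ ∀ m ≥ m₀, ∀ q ∈ V, ‖q‖ = 1 →
      δ ≤ ‖(UU e n m).starProjection q‖ := by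
  let f : ℕ → V → ℝ := fun m q => ‖(UU e n m).starProjection (q : H)‖
  have hfc : ∀ m, Continuous (f m) := fun m =>
    ((UU e n m).starProjection.continuous.comp continuous_subtype_val).norm
  have hK : IsCompact (Metric.sphere (0 : V) 1) := isCompact_sphere _ _
  obtain ⟨m₀, hm₀⟩ := hK.elim_directed_cover (fun m => {q : V | 0 < f m q})
    (fun m => isOpen_lt continuous_const (hfc m)) (by
      intro q hq
      have hq1 : ‖q‖ = 1 := by simpa using hq
      have hne : (q : H) ∉ W e n := by
        intro h
        have := hV n q q.2 h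
        rw [Submodule.coe_norm, this, norm_zero] at hq1
        exact zero_ne_one hq1
      obtain ⟨m, hm⟩ := proj_ne he hd n q hne
      exact mem_iUnion.mpr ⟨m, norm_pos_iff.mpr hm⟩)
    (by
      intro m m'
      refine ⟨max m m', ?_, ?_⟩
      · intro q hq
        exact lt_of_lt_of_le (show 0 < f m q from hq) (proj_mono he n (le_max_left _ _) q)
      · intro q hq
        exact lt_of_lt_of_le (show 0 < f m' q from hq) (proj_mono he n (le_max_right _ _) q))
  rcases (Metric.sphere (0 : V) 1).eq_empty_or_nonempty with hE | hE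
  · refine ⟨0, 1, one_pos, ?_⟩
    intro m _ q hq hq1
    have : (⟨q, hq⟩ : V) ∈ Metric.sphere (0 : V) 1 := by simpa using hq1
    rw [hE] at this
    exact absurd this (notMem_empty _)
  · obtain ⟨q₀, hq₀, hmin⟩ := hK.exists_isMinOn hE (hfc m₀).continuousOn
    refine ⟨m₀, f m₀ q₀, hm₀ hq₀, ?_⟩
    intro m hm q hq hq1
    have h1 : (⟨q, hq⟩ : V) ∈ Metric.sphere (0 : V) 1 := by simpa using hq1
    exact (hmin h1).trans (proj_mono he n hm q)

end Pool.Agent.Ban
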