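import Pool.Agent.Ban.Rot

set_option autoImplicit false
open Set Filter Topology
open scoped RealInnerProductSpace

namespace Pool.Agent.Ban

variable {H : Type} [NormedAddCommGroup H] [InnerProductSpace ℝ H]

structure Dy (e : ℕ → ℕ → H) : Prop where
  inn : ∀ n j k, j < 2^n → k < 2^n → ⟪e n j, e n k⟫ = if j = k then ((2:ℝ)^n)⁻¹ else 0
  ref : ∀ n j, j < 2^n → e n j = e (n+1) (2*j) + e (n+1) (2*j+1)

def W (e : ℕ → ℕ → H) (n : ℕ) : Submodule ℝ H :=
  Submodule.span ℝ (Set.range fun j : Fin (2^n) => e n j)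

def rr (e : ℕ → ℕ → H) (s j : ℕ) : H := e (s+1) (2*j) - e (s+1) (2*j+1)

variable {e : ℕ → ℕ → H}

theorem mem_W {n j : ℕ} (h : j < 2^n) : e n j ∈ W e n :=
  Submodule.subset_span ⟨⟨j, h⟩, rfl⟩

theorem lt1 {n j : ℕ} (h : j < 2^n) : 2*j < 2^(n+1) := by rw [pow_succ]; omega
theorem lt2 {n j : ℕ} (h : j < 2^n) : 2*j+1 < 2^(n+1) := by rw [pow_succ]; omega

theorem W_succ (he : Dy e) (n : ℕ) : W e n ≤ W e (n+1) := by
  apply Submodule.span_le.mpr
  rintro _ ⟨j, rfl⟩
  change e n j ∈ W e (n+1)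
  rw [he.ref n j j.2]
  exact Submodule.add_mem _ (mem_W (lt1 j.2)) (mem_W (lt2 j.2))

theorem W_mono (he : Dy e) : Monotone (W e) := monotone_nat_of_le_succ (W_succ he)

theorem rr_mem {s j : ℕ} (h : j < 2^s) : rr e s j ∈ W e (s+1) :=
  Submodule.sub_mem _ (mem_W (lt1 h)) (mem_W (lt2 h))

theorem rr_e (he : Dy e) {s j k : ℕ} (hj : j < 2^s) (hk : k < 2^s) : ⟪rr e s j, e s k⟫ = 0 := by
  rw [he.ref s k hk, rr, inner_sub_left, inner_add_right, inner_add_right,
    he.inn _ _ _ (lt1 hj) (lt1 hk), he.inn _ _ _ (lt1 hj) (lt2 hk),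
    he.inn _ _ _ (lt2 hj) (lt1 hk), he.inn _ _ _ (lt2 hj) (lt2 hk)]
  have h1 : (2*j = 2*k+1) = False := by simp; omega
  have h2 : (2*j+1 = 2*k) = False := by simp; omega
  have h3 : (2*j = 2*k) = (j = k) := by simp
  have h4 : (2*j+1 = 2*k+1) = (j = k) := by simp
  simp only [h1, h2, h3, h4]
  simp

theorem rr_rr (he : Dy e) {s j k : ℕ} (hj : j < 2^s) (hk : k < 2^s) :
    ⟪rr e s j, rr e s k⟫ = if j = k then ((2:ℝ)^s)⁻¹ else 0 := by
  rw [rr, rr, inner_sub_left, inner_sub_right, inner_sub_right,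
    he.inn _ _ _ (lt1 hj) (lt1 hk), he.inn _ _ _ (lt1 hj) (lt2 hk),
    he.inn _ _ _ (lt2 hj) (lt1 hk), he.inn _ _ _ (lt2 hj) (lt2 hk)]
  have h1 : (2*j = 2*k+1) = False := by simp; omega
  have h2 : (2*j+1 = 2*k) = False := by simp; omega
  have h3 : (2*j = 2*k) = (j = k) := by simp
  have h4 : (2*j+1 = 2*k+1) = (j = k) := by simp
  simp only [h1, h2, h3, h4]
  by_cases h : j = k
  · simp only [h, if_true, if_false]
    rw [pow_succ]; field_simp; norm_num
  · simp only [h, if_false]; simp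

theorem rr_orth (he : Dy e) {s j n : ℕ} (hj : j < 2^s) (hn : n ≤ s) : rr e s j ∈ (W e n)ᗮ := by
  have h1 : rr e s j ∈ (W e s)ᗮ := by
    rw [Submodule.mem_orthogonal']
    intro u hu
    induction hu using Submodule.span_induction with
    | mem x hx =>
      obtain ⟨k, rfl⟩ := hx
      exact rr_e he hj k.2
    | zero => simp
    | add x y _ _ hx hy => rw [inner_add_right, hx, hy, add_zero]
    | smul a x _ hx => rw [inner_smul_right, hx, mul_zero]
  exact Submodule.orthogonal_le (W_mono he hn) h1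

/-- index set of Haar functions of levels `n ≤ s < n'` -/
def idx (n n' : ℕ) : Finset (Σ _ : ℕ, ℕ) := (Finset.Ico n n').sigma fun s => Finset.range (2^s)

theorem mem_idx {n n' : ℕ} {x : Σ _ : ℕ, ℕ} : x ∈ idx n n' ↔ (n ≤ x.1 ∧ x.1 < n') ∧ x.2 < 2^x.1 := by
  simp [idx]

theorem card_idx {n n' : ℕ} (h : n ≤ n') : (idx n n').card = 2^n' - 2^n := by
  rw [idx, Finset.card_sigma]
  simp only [Finset.card_range]
  induction n', h using Nat.le_induction with
  | base => simp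
  | succ m hm ih =>
    rw [Finset.sum_Ico_succ_top hm, ih, pow_succ]
    have : 2^n ≤ 2^m := Nat.pow_le_pow_right (by norm_num) hm
    omega

theorem rr_inner (he : Dy e) {n n' : ℕ} (x y : Σ _ : ℕ, ℕ) (hx : x ∈ idx n n') (hy : y ∈ idx n n') :
    ⟪rr e x.1 x.2, rr e y.1 y.2⟫ = if x = y then ((2:ℝ)^x.1)⁻¹ else 0 := by
  rw [mem_idx] at hx hy
  obtain ⟨s, j⟩ := x
  obtain ⟨s', j'⟩ := y
  simp only at hx hy ⊢
  rcases lt_trichotomy s s' with h | h | h
  · have h1 := rr_orth he hy.2 (show s+1 ≤ s' from h)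
    have h2 := (Submodule.mem_orthogonal _ _).mp h1 _ (rr_mem (e := e) hx.2)
    rw [h2, if_neg]
    intro h3
    simp only [Sigma.mk.injEq] at h3
    omega
  · subst h
    rw [rr_rr he hx.2 hy.2]
    by_cases hj : j = j'
    · subst hj; simp
    · rw [if_neg hj, if_neg]
      intro h3
      simp only [Sigma.mk.injEq, heq_eq_eq, true_and] at h3
      exact hj h3
  · have h1 := rr_orth he hx.2 (show s'+1 ≤ s from h)
    have h2 := (Submodule.mem_orthogonal' _ _).mp h1 _ (rr_mem (e := e) hy.2)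
    rw [h2, if_neg]
    intro h3
    simp only [Sigma.mk.injEq] at h3
    omega

noncomputable def hh (e : ℕ → ℕ → H) (x : Σ _ : ℕ, ℕ) : H := (√((2:ℝ)^x.1)) • rr e x.1 x.2

theorem hh_orthonormal (he : Dy e) (n n' : ℕ) : Orthonormal ℝ (fun x : idx n n' => hh e x) := by
  classical
  rw [orthonormal_iff_ite]
  intro x y
  simp only [hh]
  rw [inner_smul_left, inner_smul_right, rr_inner he _ _ x.2 y.2]
  by_cases h : x = y
  · subst h
    simp only [if_true]
    have hp : (0:ℝ) < 2^(x:Σ _ : ℕ, ℕ).1 := by positivity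
    simp only [RCLike.conj_to_real]
    rw [← mul_assoc, Real.mul_self_sqrt hp.le, mul_inv_cancel₀ hp.ne']
  · have h' : ¬ ((x:Σ _ : ℕ, ℕ) = y) := fun h'' => h (Subtype.ext h'')
    rw [if_neg h, if_neg h']; simp

theorem exists_enum {ι : Type} [Fintype ι] (L : ℕ) (hL : Fintype.card ι = L) (κ : ι → ℝ) :
    ∃ g : Fin L ≃ ι, Monotone (κ ∘ g) := by
  let e := (Fintype.equivFinOfCardEq hL).symm
  refine ⟨(Tuple.sort (κ ∘ e)).trans e, ?_⟩
  exact Tuple.monotone_sort (κ ∘ e)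

theorem exists_cut {L : ℕ} (p : Fin L → Prop) (hp : ∀ i j : Fin L, i ≤ j → p j → p i) :
    ∃ a ≤ L, ∀ j : Fin L, p j ↔ (j : ℕ) < a := by
  classical
  refine ⟨Nat.findGreatest (fun m => ∀ j : Fin L, (j:ℕ) < m → p j) L, Nat.findGreatest_le L, ?_⟩
  have hspec : ∀ j : Fin L, (j:ℕ) < Nat.findGreatest (fun m => ∀ j : Fin L, (j:ℕ) < m → p j) L → p j := by
    have := Nat.findGreatest_spec (P := fun m => ∀ j : Fin L, (j:ℕ) < m → p j) (m := 0) (n := L)
      (Nat.zero_le _) (fun j hj => absurd hj (Nat.not_lt_zero _))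
    exact this
  intro j
  constructor
  · intro hj
    by_contra hlt
    push Not at hlt
    have : ∀ i : Fin L, (i:ℕ) < (j:ℕ)+1 → p i := fun i hi =>
      hp i j (Fin.le_def.mpr (by omega)) hj
    have := Nat.le_findGreatest (P := fun m => ∀ j : Fin L, (j:ℕ) < m → p j)
      (show (j:ℕ)+1 ≤ L from j.2) this
    omega
  · exact hspec j

end Pool.Agent.Ban
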