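import Pool.Agent.Ban.StepC

set_option autoImplicit false
open Set Filter Topology MeasureTheory
open scoped RealInnerProductSpace ENNReal

namespace Pool.Agent.Ban

theorem sum_shift (L N a b : ℕ) (hb : b ≤ L) (f : ℕ → ℝ) :
    ∑ j ∈ Finset.univ.filter (fun j : Fin L => a ≤ (j:ℕ) ∧ (j:ℕ) < b), f (N + j) =
      ∑ j ∈ Finset.Ico (N+a) (N+b), f j := by
  apply Finset.sum_nbij (fun j : Fin L => N + (j:ℕ))
  · intro j hj
    simp only [Finset.mem_filter, Finset.mem_univ, true_and] at hj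
    simp only [Finset.mem_Ico]; omega
  · intro i _ j _ h
    simp only at h
    exact Fin.ext (by omega)
  · intro j hj
    simp only [Finset.coe_Ico, mem_Ico] at hj
    refine ⟨⟨j - N, by omega⟩, ?_, ?_⟩
    · simp only [Finset.coe_filter, Finset.mem_univ, true_and, mem_ofPred_eq]; omega
    · simp only; omega
  · intro j _; rfl

theorem coe_sum {ι : Type} (s : Finset ι) (c : ι → ℝ) (f : ι → HH) :
    ((∑ i ∈ s, c i • f i : HH) : ℝ → ℝ) =ᵐ[mu] fun t => ∑ i ∈ s, c i * (f i : ℝ → ℝ) t := by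
  have h2 : ∀ᵐ t ∂mu, ∀ i ∈ s, ((c i • f i : HH) : ℝ → ℝ) t = c i * (f i : ℝ → ℝ) t := by
    rw [Filter.eventually_all_finset]
    intro i _
    filter_upwards [Lp.coeFn_smul (c i) (f i)] with t ht
    rw [ht]; simp
  filter_upwards [Lp.coeFn_fun_finsetSum s (fun i => c i • f i), h2] with t h1 h2
  rw [h1]
  exact Finset.sum_congr rfl fun i hi => h2 i hi

theorem markov (u : HH) (hu : ‖u‖ ≤ 1) (K1 : ℝ) (hK : 0 < K1) :
    mu {t | K1 ≤ |(u : ℝ → ℝ) t|} ≤ ENNReal.ofReal (1/K1) := by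
  have h1 : ∫⁻ t, ‖(u : ℝ → ℝ) t‖ₑ ∂mu ≤ 1 := by
    rw [← eLpNorm_one_eq_lintegral_enorm]
    refine (eLpNorm_le_eLpNorm_of_exponent_le (p := 1) (q := 2) (by norm_num)
      (Lp.aestronglyMeasurable u)).trans ?_
    have h2 : ‖u‖ = (eLpNorm u 2 mu).toReal := Lp.norm_def u
    rw [h2] at hu
    exact (ENNReal.toReal_le_toReal (Lp.eLpNorm_ne_top u) ENNReal.one_ne_top).mp (by simpa using hu)
  have h3 := mul_meas_ge_le_lintegral₀ (μ := mu) (f := fun t => ‖(u : ℝ → ℝ) t‖ₑ)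
    (Lp.aestronglyMeasurable u).enorm (ENNReal.ofReal K1)
  have h4 : {t | K1 ≤ |(u : ℝ → ℝ) t|} = {t | ENNReal.ofReal K1 ≤ ‖(u : ℝ → ℝ) t‖ₑ} := by
    ext t
    simp only [mem_ofPred_eq]
    rw [← ofReal_norm, Real.norm_eq_abs, ENNReal.ofReal_le_ofReal_iff (abs_nonneg _)]
  rw [← h4] at h3
  have h5 : ENNReal.ofReal K1 * mu {t | K1 ≤ |(u : ℝ → ℝ) t|} ≤ 1 := h3.trans h1
  rw [ENNReal.ofReal_div_of_pos hK, ENNReal.ofReal_one, ENNReal.le_div_iff_mul_le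
    (Or.inl (by simpa using hK)) (Or.inl ENNReal.ofReal_ne_top), mul_comm]
  exact h5

theorem step_conc (V : Submodule ℝ HH) [FiniteDimensional ℝ V]
    (hV : ∀ m, ∀ q ∈ V, q ∈ W ee m → q = 0) (k : ℕ) (n : ℕ) (φ : ℕ → HH) (hφ : Good ee n φ) :
    ∃ (n' : ℕ) (φ' : ℕ → HH) (B : Set ℝ), n < n' ∧ (∀ i, i < 2^n → φ' i = φ i) ∧ Good ee n' φ' ∧
      mu B ≤ ENNReal.ofReal ((1/2)^k) ∧ ∀ q ∈ V, ‖q‖ = 1 → ∀ᵐ t ∂mu, t ∉ B →
        ∃ a b : ℕ, 2^n ≤ a ∧ a ≤ b ∧ b ≤ 2^n' ∧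
          1 ≤ |∑ j ∈ Finset.Ico a b, ⟪q, φ' j⟫ * (φ' j : ℝ → ℝ) t| := by
  classical
  set D := Module.finrank ℝ V + 1 with hD
  have hDr : (0:ℝ) < D := by rw [hD]; positivity
  set K1 : ℝ := D * 2^k with hK1
  have hK1p : 0 < K1 := by positivity
  obtain ⟨S, D', hS, hD', g, φ', u, hg, hφ', hgood, hu, hstep⟩ :=
    step_abs dy_ee hd_ee V hV (1 + 2*D*K1) D (Nat.lt_succ_self _) n φ hφ
  refine ⟨n + D*S, φ', ⋃ i : Fin D', {t | K1 ≤ |(u i : ℝ → ℝ) t|}, ?_, hφ', hgood, ?_, ?_⟩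
  · have : 0 < D*S := Nat.mul_pos (by omega) hS
    omega
  · refine (measure_iUnion_fintype_le _ _).trans ?_
    calc ∑ i : Fin D', mu {t | K1 ≤ |(u i : ℝ → ℝ) t|} ≤ ∑ i : Fin D', ENNReal.ofReal (1/K1) :=
          Finset.sum_le_sum fun i _ => markov (u i) (hu i) K1 hK1p
      _ = ENNReal.ofReal (D' * (1/K1)) := by
          rw [Finset.sum_const, Finset.card_univ, Fintype.card_fin, nsmul_eq_mul,
            ENNReal.ofReal_mul (Nat.cast_nonneg _), ENNReal.ofReal_natCast]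
      _ ≤ ENNReal.ofReal ((1/2)^k) := by
          apply ENNReal.ofReal_le_ofReal
          have : (D':ℝ) ≤ D := by exact_mod_cast hD'
          rw [hK1]
          calc (D':ℝ) * (1/(D*2^k)) ≤ D * (1/(D*2^k)) := by gcongr
            _ = (1/2)^k := by rw [one_div_pow]; field_simp
  · intro q hq hq1
    obtain ⟨c, ⟨i, hi, hci⟩, hP⟩ := hstep q hq hq1
    choose β hβ hPβ using hP
    have hae : ∀ᵐ t ∂mu, ∀ P : Finset (Fin (2^(n+D*S) - 2^n)),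
        ∑ j ∈ P, ⟪q, φ' (2^n+j)⟫ * (φ' (2^n+j) : ℝ → ℝ) t =
        ∑ j ∈ P, (c (blk n S (g j)) * (√(S:ℝ))⁻¹) * RF (g j : Σ _ : ℕ, ℕ).1 (g j : Σ _ : ℕ, ℕ).2 t
        + ∑ l, β P l * (u l : ℝ → ℝ) t := by
      rw [ae_all_iff]
      intro P
      have h1 := coe_sum P (fun j => ⟪q, φ' (2^n+j)⟫) (fun j => φ' (2^n+j))
      have h2 := coe_sum P (fun j => c (blk n S (g j)) * (√(S:ℝ))⁻¹)
        (fun j => rr ee (g j : Σ _ : ℕ, ℕ).1 (g j : Σ _ : ℕ, ℕ).2)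
      have h3 := coe_sum Finset.univ (fun l => β P l) u
      have h4 : ∀ᵐ t ∂mu, ∀ j ∈ P, ((rr ee (g j : Σ _ : ℕ, ℕ).1 (g j : Σ _ : ℕ, ℕ).2 : HH) : ℝ → ℝ) t =
          RF (g j : Σ _ : ℕ, ℕ).1 (g j : Σ _ : ℕ, ℕ).2 t := by
        rw [Filter.eventually_all_finset]
        intro j _
        exact rr_coe _ _
      rw [hPβ P] at h1
      filter_upwards [h1, h2, h3, h4, Lp.coeFn_add
        (∑ j ∈ P, (c (blk n S (g j)) * (√(S:ℝ))⁻¹) • rr ee (g j : Σ _ : ℕ, ℕ).1 (g j : Σ _ : ℕ, ℕ).2)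
        (∑ l, β P l • u l)] with t h1 h2 h3 h4 h5
      rw [← h1, h5, Pi.add_apply, h2, h3]
      congr 1
      refine Finset.sum_congr rfl fun j hj => ?_
      rw [h4 j hj]
    filter_upwards [hae, ae_Ico] with t ht ht01 htB
    obtain ⟨a, b, hab, hbL, hosc⟩ := osc n S D i hS hi _ g hg c ht01
    have hpow : 2^n ≤ 2^(n+D*S) := Nat.pow_le_pow_right (by norm_num) (by omega)
    refine ⟨2^n + a, 2^n + b, by omega, by omega, by omega, ?_⟩
    rw [← sum_shift _ _ a b hbL (fun j => ⟪q, φ' j⟫ * (φ' j : ℝ → ℝ) t), ht]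
    set P := Finset.univ.filter (fun j : Fin (2^(n+D*S) - 2^n) => a ≤ (j:ℕ) ∧ (j:ℕ) < b)
    set A := ∑ j ∈ P, (c (blk n S (g j)) * (√(S:ℝ))⁻¹) *
      RF (g j : Σ _ : ℕ, ℕ).1 (g j : Σ _ : ℕ, ℕ).2 t
    have hB : |∑ l, β P l * (u l : ℝ → ℝ) t| ≤ 2*D*K1 := by
      calc |∑ l, β P l * (u l : ℝ → ℝ) t| ≤ ∑ l, |β P l * (u l : ℝ → ℝ) t| :=
            Finset.abs_sum_le_sum_abs _ _
        _ ≤ ∑ l : Fin D', 2 * K1 := by
            refine Finset.sum_le_sum fun l _ => ?_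
            rw [abs_mul]
            have h6 : |(u l : ℝ → ℝ) t| ≤ K1 := by
              by_contra h7
              push Not at h7
              exact htB (mem_iUnion.mpr ⟨l, h7.le⟩)
            have := hβ P l
            gcongr
        _ = D' * (2*K1) := by simp
        _ ≤ 2*D*K1 := by
            have : (D':ℝ) ≤ D := by exact_mod_cast hD'
            nlinarith
    have h8 : |A| ≤ |A + ∑ l, β P l * (u l : ℝ → ℝ) t| + |∑ l, β P l * (u l : ℝ → ℝ) t| := by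
      have := abs_sub (A + ∑ l, β P l * (u l : ℝ → ℝ) t) (∑ l, β P l * (u l : ℝ → ℝ) t)
      simpa using this
    linarith [hci.trans hosc]

end Pool.Agent.Ban
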