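import Pool.Agent.Ban.Poly

set_option autoImplicit false
open Set Filter Topology MeasureTheory
open scoped RealInnerProductSpace ENNReal

namespace Pool.Agent.Ban

theorem inner_HH (f g : HH) : ⟪f, g⟫ = ∫ t, (f : ℝ → ℝ) t * (g : ℝ → ℝ) t ∂mu := by
  rw [L2.inner_def]
  apply integral_congr_ae
  exact Eventually.of_forall fun t => by simp [mul_comm]

theorem W_le_span (n : ℕ) (φ : ℕ → HH) (h : Good ee n φ) :
    W ee n ≤ Submodule.span ℝ (Set.range fun i : Fin (2^n) => φ i) := by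
  classical
  have hle : Submodule.span ℝ (Set.range fun i : Fin (2^n) => φ i) ≤ W ee n := by
    apply Submodule.span_le.mpr
    rintro _ ⟨i, rfl⟩
    exact h.2 i i.2
  have horth : Orthonormal ℝ (fun i : Fin (2^n) => φ i) := by
    rw [orthonormal_iff_ite]
    intro i j
    rw [h.1 i j i.2 j.2]
    by_cases hij : i = j
    · subst hij; simp
    · rw [if_neg hij, if_neg (fun h' => hij (Fin.ext h'))]
  have h1 : Module.finrank ℝ (Submodule.span ℝ (Set.range fun i : Fin (2^n) => φ i)) = 2^n := by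
    rw [finrank_span_eq_card horth.linearIndependent, Fintype.card_fin]
  have h2 : Module.finrank ℝ (W ee n) ≤ 2^n := by
    have := finrank_range_le_card (R := ℝ) (fun j : Fin (2^n) => ee n j)
    rw [Fintype.card_fin] at this
    exact this
  have := Submodule.eq_of_le_of_finrank_le hle (by rw [h1]; exact h2)
  rw [this]

theorem exists_seq : ∃ (N : ℕ → ℕ) (Φ : ℕ → ℕ → HH) (B : ℕ → Set ℝ),
    (∀ k, N k < N (k+1)) ∧ (∀ k i, i < 2^(N k) → Φ (k+1) i = Φ k i) ∧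
    (∀ k, Good ee (N k) (Φ k)) ∧ (∀ k, mu (B k) ≤ ENNReal.ofReal ((1/2)^k)) ∧
    ∀ k, ∀ q ∈ VV k, ‖q‖ = 1 → ∀ᵐ t ∂mu, t ∉ B k →
        ∃ a b : ℕ, 2^(N k) ≤ a ∧ a ≤ b ∧ b ≤ 2^(N (k+1)) ∧
          1 ≤ |∑ j ∈ Finset.Ico a b, ⟪q, Φ (k+1) j⟫ * (Φ (k+1) j : ℝ → ℝ) t| := by
  classical
  let St := {s : ℕ × (ℕ → HH) // Good ee s.1 s.2}
  have hstep : ∀ (k : ℕ) (s : St), ∃ (s' : St) (B : Set ℝ), s.1.1 < s'.1.1 ∧
      (∀ i, i < 2^s.1.1 → s'.1.2 i = s.1.2 i) ∧ mu B ≤ ENNReal.ofReal ((1/2)^k) ∧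
      ∀ q ∈ VV k, ‖q‖ = 1 → ∀ᵐ t ∂mu, t ∉ B →
        ∃ a b : ℕ, 2^s.1.1 ≤ a ∧ a ≤ b ∧ b ≤ 2^s'.1.1 ∧
          1 ≤ |∑ j ∈ Finset.Ico a b, ⟪q, s'.1.2 j⟫ * (s'.1.2 j : ℝ → ℝ) t| := by
    rintro k ⟨⟨n, φ⟩, hs⟩
    obtain ⟨n', φ', B, h1, h2, h3, h4, h5⟩ := step_conc (VV k) (VV_W k) k n φ hs
    exact ⟨⟨(n', φ'), h3⟩, B, h1, h2, h4, h5⟩
  choose nxt B h1 h2 h3 h4 using hstep
  have hbase : Good ee 0 (fun _ => ee 0 0) := by
    constructor
    · intro i j hi hj
      have hi' : i = 0 := by simpa using hi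
      have hj' : j = 0 := by simpa using hj
      subst hi'; subst hj'
      have := dy_ee.inn 0 0 0 (by norm_num) (by norm_num)
      simpa using this
    · intro i _
      exact mem_W (by norm_num)
  let sq : ℕ → St := fun k => Nat.rec ⟨(0, fun _ => ee 0 0), hbase⟩ (fun k s => nxt k s) k
  have hsq : ∀ k, sq (k+1) = nxt k (sq k) := fun k => rfl
  refine ⟨fun k => (sq k).1.1, fun k => (sq k).1.2, fun k => B k (sq k), ?_, ?_, ?_, ?_, ?_⟩
  · intro k; exact h1 k (sq k)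
  · intro k; exact h2 k (sq k)
  · intro k; exact (sq k).2
  · intro k; exact h3 k (sq k)
  · intro k; exact h4 k (sq k)

theorem main :
  ∃ φ : ℕ → ℝ → ℝ,
    (∀ n, Measurable (φ n)) ∧
    (∀ n, MemLp (φ n) 2 (volume.restrict (Set.Icc (0:ℝ) 1))) ∧
    (∀ n m, ∫ t in Set.Icc (0:ℝ) 1, φ n t * φ m t = if n = m then (1:ℝ) else 0) ∧
    (∀ f : ℝ → ℝ, MemLp f 2 (volume.restrict (Set.Icc (0:ℝ) 1)) →
      (∀ n, ∫ t in Set.Icc (0:ℝ) 1, f t * φ n t = 0) →
      f =ᵐ[volume.restrict (Set.Icc (0:ℝ) 1)] 0) ∧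
    ∀ p : Polynomial ℝ, p ≠ 0 →
      ∀ᵐ t ∂(volume.restrict (Set.Icc (0:ℝ) 1)),
        ¬ ∃ L : ℝ, Filter.Tendsto
          (fun N : ℕ => ∑ n ∈ Finset.range N,
            (∫ s in Set.Icc (0:ℝ) 1, p.eval s * φ n s) * φ n t)
          Filter.atTop (nhds L) := by
  classical
  obtain ⟨N, Φ, B, hN, hΦ, hG, hB, hosc⟩ := exists_seq
  have hNm : StrictMono N := strictMono_nat_of_lt_succ hN
  have hNk : ∀ k, k ≤ N k := fun k => hNm.id_le k
  have hlt : ∀ j k, j ≤ k → j < 2^(N k) := by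
    intro j k hjk
    calc j < 2^j := Nat.lt_two_pow_self
      _ ≤ 2^(N k) := Nat.pow_le_pow_right (by norm_num) (hjk.trans (hNk k))
  have hext : ∀ k l j, k ≤ l → j < 2^(N k) → Φ l j = Φ k j := by
    intro k l j hkl hj
    induction l, hkl using Nat.le_induction with
    | base => rfl
    | succ m hm ih =>
      rw [hΦ m j (lt_of_lt_of_le hj (Nat.pow_le_pow_right (by norm_num) (hNm.monotone hm))), ih]
  let F : ℕ → HH := fun j => Φ j j
  have hF : ∀ k j, j < 2^(N k) → Φ k j = F j := by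
    intro k j hj
    rcases le_total k j with h | h
    · exact (hext k j j h hj).symm
    · exact hext j k j h (hlt j j le_rfl)
  have horth : ∀ n m, ⟪F n, F m⟫ = if n = m then 1 else 0 := by
    intro n m
    have h1 := hlt n (max n m) (le_max_left _ _)
    have h2 := hlt m (max n m) (le_max_right _ _)
    rw [← hF _ n h1, ← hF _ m h2]
    exact (hG _).1 n m h1 h2
  have hcomp : ∀ f : HH, (∀ n, ⟪f, F n⟫ = 0) → f = 0 := by
    intro f hf
    apply hd_ee
    intro n j hj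
    have h1 : ee n j ∈ W ee (N n) := W_mono dy_ee (hNk n) (mem_W hj)
    have h2 := W_le_span (N n) (Φ n) (hG n) h1
    generalize ee n j = y at h2
    clear h1
    induction h2 using Submodule.span_induction with
    | mem x hx =>
      obtain ⟨i, rfl⟩ := hx
      change ⟪Φ n i, f⟫ = 0
      rw [hF n i i.2, real_inner_comm]; exact hf i
    | zero => simp
    | add x y _ _ hx hy => rw [inner_add_left, hx, hy, add_zero]
    | smul a x _ hx => rw [inner_smul_left, hx, mul_zero]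
  refine ⟨fun n => (F n : ℝ → ℝ), ?_, ?_, ?_, ?_, ?_⟩
  · intro n; exact (Lp.stronglyMeasurable (F n)).measurable
  · intro n; exact Lp.memLp (F n)
  · intro n m
    rw [← inner_HH]; exact horth n m
  · intro f hf hfn
    have h1 : hf.toLp f = 0 := by
      apply hcomp
      intro n
      rw [inner_HH]
      refine Eq.trans ?_ (hfn n)
      apply integral_congr_ae
      filter_upwards [hf.coeFn_toLp] with t ht
      rw [ht]
    have h2 := hf.coeFn_toLp
    rw [h1] at h2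
    exact h2.symm.trans (Lp.coeFn_zero ℝ 2 mu)
  · intro p hp
    have hcoef : ∀ n, ∫ s in Set.Icc (0:ℝ) 1, p.eval s * (F n : ℝ → ℝ) s = ⟪TP p, F n⟫ := by
      intro n
      rw [inner_HH]
      apply integral_congr_ae
      filter_upwards [TP_coe p] with t ht
      rw [ht]
    simp only [hcoef]
    set r := ‖TP p‖ with hr
    have hrp : 0 < r := norm_pos_iff.mpr (TP_ne p hp)
    let q : HH := r⁻¹ • TP p
    have hq1 : ‖q‖ = 1 := by
      simp only [q]
      rw [norm_smul, norm_inv, Real.norm_eq_abs, abs_of_pos hrp, inv_mul_cancel₀ hrp.ne']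
    have hqV : ∀ k, p.natDegree < k → q ∈ VV k := by
      intro k hk
      apply Submodule.smul_mem
      refine ⟨p, ?_, rfl⟩
      change p ∈ Polynomial.degreeLT ℝ k
      rw [Polynomial.mem_degreeLT]
      exact lt_of_le_of_lt Polynomial.degree_le_natDegree (by exact_mod_cast hk)
    have hae1 : ∀ᵐ t ∂mu, ∀ k, p.natDegree < k → t ∉ B k →
        ∃ a b : ℕ, 2^(N k) ≤ a ∧ a ≤ b ∧ b ≤ 2^(N (k+1)) ∧
          1 ≤ |∑ j ∈ Finset.Ico a b, ⟪q, Φ (k+1) j⟫ * (Φ (k+1) j : ℝ → ℝ) t| := by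
      rw [ae_all_iff]
      intro k
      by_cases hk : p.natDegree < k
      · filter_upwards [hosc k q (hqV k hk) hq1] with t ht _ using ht
      · exact Eventually.of_forall fun t h => absurd h hk
    have hae2 : ∀ᵐ t ∂mu, ∀ᶠ k in atTop, t ∉ B k := by
      apply ae_eventually_notMem
      have h1 : ∑' k, mu (B k) ≤ ∑' k : ℕ, ENNReal.ofReal ((1/2)^k) := ENNReal.tsum_le_tsum hB
      have h2 : ∑' k : ℕ, ENNReal.ofReal ((1/2)^k) ≠ ∞ := by
        rw [← ENNReal.ofReal_tsum_of_nonneg (fun k => by positivity)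
          (summable_geometric_of_lt_one (by norm_num) (by norm_num))]
        exact ENNReal.ofReal_ne_top
      exact ne_top_of_le_ne_top h2 h1
    filter_upwards [hae1, hae2] with t ht1 ht2
    rintro ⟨L, hL⟩
    have hC := hL.cauchySeq
    rw [Metric.cauchySeq_iff] at hC
    obtain ⟨N₀, hN₀⟩ := hC r hrp
    obtain ⟨k, hk⟩ := (ht2.and ((eventually_gt_atTop p.natDegree).and (eventually_ge_atTop N₀))).exists
    obtain ⟨a, b, hka, hab, hb, hge⟩ := ht1 k hk.2.1 hk.1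
    have hNa : N₀ ≤ a := by
      have h1 := hlt k k le_rfl
      have h2 := hk.2.2
      omega
    have h5 := hN₀ b (hNa.trans hab) a hNa
    rw [Real.dist_eq] at h5
    have h6 : ∑ n ∈ Finset.range b, ⟪TP p, F n⟫ * (F n : ℝ → ℝ) t -
        ∑ n ∈ Finset.range a, ⟪TP p, F n⟫ * (F n : ℝ → ℝ) t =
        ∑ j ∈ Finset.Ico a b, ⟪TP p, F j⟫ * (F j : ℝ → ℝ) t := by
      rw [Finset.sum_Ico_eq_sub _ hab]
    rw [h6] at h5
    have h7 : ∑ j ∈ Finset.Ico a b, ⟪q, Φ (k+1) j⟫ * (Φ (k+1) j : ℝ → ℝ) t =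
        r⁻¹ * ∑ j ∈ Finset.Ico a b, ⟪TP p, F j⟫ * (F j : ℝ → ℝ) t := by
      rw [Finset.mul_sum]
      refine Finset.sum_congr rfl fun j hj => ?_
      have hj' : j < 2^(N (k+1)) := lt_of_lt_of_le (Finset.mem_Ico.mp hj).2 hb
      rw [hF (k+1) j hj']
      simp only [q]
      rw [inner_smul_left]
      simp only [RCLike.conj_to_real]
      ring
    rw [h7, abs_mul, abs_of_pos (inv_pos.mpr hrp)] at hge
    have h8 : r ≤ |∑ j ∈ Finset.Ico a b, ⟪TP p, F j⟫ * (F j : ℝ → ℝ) t| := by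
      have h9 := mul_le_mul_of_nonneg_left hge hrp.le
      rw [mul_one, ← mul_assoc, mul_inv_cancel₀ hrp.ne', one_mul] at h9
      exact h9
    linarith

end Pool.Agent.Ban
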