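import Pool.Agent.Ban.Fin

set_option autoImplicit false
open Set Filter Topology MeasureTheory
open scoped RealInnerProductSpace ENNReal

namespace Pool.Agent.Ban

theorem poly_memLp (p : Polynomial ℝ) : MemLp (fun t : ℝ => p.eval t) 2 mu := by
  obtain ⟨C, hC⟩ := isCompact_Icc.exists_bound_of_continuousOn
    (s := Set.Icc (0:ℝ) 1) (f := fun t : ℝ => p.eval t) p.continuous.continuousOn
  apply MemLp.of_bound p.continuous.aestronglyMeasurable C
  filter_upwards [ae_restrict_mem (μ := volume) measurableSet_Icc] with t ht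
  exact hC t ht

noncomputable def TP : Polynomial ℝ →ₗ[ℝ] HH where
  toFun p := (poly_memLp p).toLp _
  map_add' p q := by
    rw [← MemLp.toLp_add]
    apply (MemLp.toLp_eq_toLp_iff _ _).mpr
    exact Eventually.of_forall fun t => by simp
  map_smul' c p := by
    rw [RingHom.id_apply, ← MemLp.toLp_const_smul]
    apply (MemLp.toLp_eq_toLp_iff _ _).mpr
    exact Eventually.of_forall fun t => by simp

theorem TP_coe (p : Polynomial ℝ) : (TP p : ℝ → ℝ) =ᵐ[mu] fun t => p.eval t :=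
  (poly_memLp p).coeFn_toLp

theorem W_form (m : ℕ) (q : HH) (hq : q ∈ W ee m) :
    ∃ c : ℕ → ℝ, ∀ᵐ t ∂mu, (q : ℝ → ℝ) t = c (fl m t) * th t := by
  classical
  induction hq using Submodule.span_induction with
  | mem x hx =>
    obtain ⟨j, rfl⟩ := hx
    refine ⟨fun i => if i = j then 1 else 0, ?_⟩
    filter_upwards [ee_coe m j] with t ht
    rw [ht, EE]
    split_ifs <;> simp
  | zero =>
    refine ⟨fun _ => 0, ?_⟩
    filter_upwards [Lp.coeFn_zero ℝ 2 mu] with t ht
    rw [ht]; simp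
  | add x y _ _ hx hy =>
    obtain ⟨c, hc⟩ := hx
    obtain ⟨d, hd⟩ := hy
    refine ⟨fun i => c i + d i, ?_⟩
    filter_upwards [hc, hd, Lp.coeFn_add x y] with t h1 h2 h3
    rw [h3, Pi.add_apply, h1, h2]; ring
  | smul a x _ hx =>
    obtain ⟨c, hc⟩ := hx
    refine ⟨fun i => a * c i, ?_⟩
    filter_upwards [hc, Lp.coeFn_smul a x] with t h1 h2
    rw [h2, Pi.smul_apply, h1, smul_eq_mul]; ring

theorem poly_const (p : Polynomial ℝ) (d a b : ℝ) (ha : 0 ≤ a) (hab : a < b) (hb : b ≤ 1)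
    (h : ∀ᵐ t ∂mu, t ∈ Set.Ioo a b → p.eval t = d) : p = Polynomial.C d := by
  apply Polynomial.eq_of_infinite_eval_eq
  intro hfin
  have h1 : mu {t : ℝ | p.eval t = (Polynomial.C d).eval t} = 0 := hfin.measure_zero _
  have h2 : mu (Set.Ioo a b) ≤ mu {t : ℝ | p.eval t = (Polynomial.C d).eval t} := by
    apply measure_mono_ae
    filter_upwards [h] with t ht htI
    change p.eval t = (Polynomial.C d).eval t
    rw [ht htI]; simp
  have h3 : mu (Set.Ioo a b) = ENNReal.ofReal (b - a) := by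
    rw [Measure.restrict_apply measurableSet_Ioo, inter_eq_left.mpr, Real.volume_Ioo]
    exact fun t ht => ⟨ha.trans ht.1.le, ht.2.le.trans hb⟩
  rw [h1, h3] at h2
  have h4 : b - a ≤ 0 := by simpa using h2
  linarith

theorem poly_not_step (p : Polynomial ℝ) (m : ℕ) (h : TP p ∈ W ee m) : p = 0 := by
  obtain ⟨c, hc⟩ := W_form m _ h
  have hp : (0:ℝ) < 2^m := by positivity
  set j := fl m (1/3) with hj
  have h13 : (1/3 : ℝ) ∈ Set.Ico ((j:ℝ)/2^m) (((j:ℝ)+1)/2^m) :=
    (fl_iff (by norm_num)).mp hj.symm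
  have hjlt : j < 2^m := by
    have := h13.1
    rw [div_le_iff₀ hp] at this
    have h5 : (j:ℝ) < 2^m := by linarith
    exact_mod_cast h5
  have hne : (j:ℝ)/2^m ≠ 1/3 := by
    intro h5
    rw [div_eq_iff hp.ne'] at h5
    have h6 : (3:ℝ) * j = 2^m := by linarith
    have h7 : 3 * j = 2^m := by exact_mod_cast h6
    have h8 : 3 ∣ 2^m := ⟨j, h7.symm⟩
    have h9 := Nat.Prime.dvd_of_dvd_pow Nat.prime_three h8
    omega
  have hlt : (j:ℝ)/2^m < 1/3 := lt_of_le_of_ne h13.1 hne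
  have hsub := Ico_sub hjlt
  have hb1 : ((j:ℝ)+1)/2^m ≤ 1 := by
    rw [div_le_one hp]; exact_mod_cast hjlt
  have e1 : p = Polynomial.C (-(c j)) := by
    apply poly_const p _ ((j:ℝ)/2^m) (1/3) (by positivity) hlt (by norm_num)
    filter_upwards [hc, TP_coe p] with t h1 h2 ht
    have h3 : fl m t = j := (fl_iff ((show (0:ℝ) ≤ (j:ℝ)/2^m by positivity).trans ht.1.le)).mpr
      ⟨ht.1.le, ht.2.trans h13.2⟩
    rw [← h2, h1, h3]
    unfold th
    rw [if_pos ht.2]; ring
  have e2 : p = Polynomial.C (c j) := by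
    apply poly_const p _ (1/3) (((j:ℝ)+1)/2^m) (by norm_num) h13.2 hb1
    filter_upwards [hc, TP_coe p] with t h1 h2 ht
    have h3 : fl m t = j := (fl_iff ((show (0:ℝ) ≤ 1/3 by norm_num).trans ht.1.le)).mpr
      ⟨h13.1.trans ht.1.le, ht.2⟩
    rw [← h2, h1, h3]
    unfold th
    rw [if_neg (not_lt.mpr ht.1.le)]; ring
  have e3 := e1.symm.trans e2
  have e4 := Polynomial.C_injective e3
  have e5 : c j = 0 := by linarith
  rw [e2, e5, Polynomial.C_0]

noncomputable def VV (k : ℕ) : Submodule ℝ HH := (Polynomial.degreeLT ℝ k).map TP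

instance (k : ℕ) : FiniteDimensional ℝ (VV k) := by
  have : FiniteDimensional ℝ (Polynomial.degreeLT ℝ k) :=
    Module.Finite.equiv (Polynomial.degreeLTEquiv ℝ k).symm
  unfold VV
  infer_instance

theorem VV_W (k m : ℕ) (q : HH) (hq : q ∈ VV k) (hqW : q ∈ W ee m) : q = 0 := by
  obtain ⟨p, _, rfl⟩ := hq
  rw [poly_not_step p m hqW, map_zero]

theorem TP_ne (p : Polynomial ℝ) (hp : p ≠ 0) : TP p ≠ 0 := by
  intro h
  apply hp
  apply poly_not_step p 0
  rw [h]; exact Submodule.zero_mem _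

end Pool.Agent.Ban
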