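import Mathlib

set_option autoImplicit false
open Set Filter Topology
open scoped RealInnerProductSpace

namespace Pool.Agent.Ban

variable {H : Type} [NormedAddCommGroup H] [InnerProductSpace ℝ H]

theorem refl_form (z : H) (hz : z ≠ 0) (x : H) :
    (ℝ ∙ z)ᗮ.reflection x = x + (-2 * ⟪‖z‖⁻¹ • z, x⟫) • (‖z‖⁻¹ • z) := by
  have hz' : ‖z‖ ≠ 0 := norm_ne_zero_iff.mpr hz
  rw [Submodule.reflection_orthogonal_apply, Submodule.reflection_singleton_apply]
  rw [inner_smul_left, smul_smul]
  simp only [RCLike.conj_to_real]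
  rw [neg_sub, sub_eq_add_neg, two_nsmul, ← add_smul, ← neg_smul]
  congr 2
  simp only [RCLike.ofReal_real_eq_id, id]
  field_simp
  ring

theorem rot (U : Submodule ℝ H) : ∀ (D : ℕ) (w v : Fin D → H), Orthonormal ℝ w → Orthonormal ℝ v →
    (∀ i, w i ∈ U) → (∀ i, v i ∈ U) →
    ∃ (R : H ≃ₗᵢ[ℝ] H) (u : Fin D → H), (∀ k, u k ∈ U ∧ ‖u k‖ ≤ 1) ∧ (∀ i, R (w i) = v i) ∧
      (∀ x, ∃ b : Fin D → ℝ, (∀ k, |b k| ≤ 2 * ‖x‖) ∧ R x = x + ∑ k, b k • u k) ∧
      (∀ x ∈ Uᗮ, R x = x) := by
  intro D
  induction D with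
  | zero =>
    intro w v _ _ _ _
    refine ⟨LinearIsometryEquiv.refl ℝ H, Fin.elim0, fun k => k.elim0, fun k => k.elim0, ?_, ?_⟩
    · intro x; exact ⟨Fin.elim0, fun k => k.elim0, by simp⟩
    · intro x _; rfl
  | succ D ih =>
    intro w v hw hv hwU hvU
    obtain ⟨R₀, u₀, hu₀, hR₀, hb₀, hf₀⟩ := ih (fun i => w i.castSucc) (fun i => v i.castSucc)
      (hw.comp _ (Fin.castSucc_injective D)) (hv.comp _ (Fin.castSucc_injective D))
      (fun i => hwU _) (fun i => hvU _)
    have hR₀U : ∀ x ∈ U, R₀ x ∈ U := by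
      intro x hx
      obtain ⟨b, _, hb⟩ := hb₀ x
      rw [hb]
      exact U.add_mem hx (U.sum_mem fun k _ => U.smul_mem _ (hu₀ k).1)
    set w' := R₀ (w (Fin.last D)) with hw'
    set z := w' - v (Fin.last D) with hz
    have hnorm : ‖w'‖ = ‖v (Fin.last D)‖ := by
      rw [hw', LinearIsometryEquiv.norm_map, hw.1, hv.1]
    have hzU : z ∈ U := U.sub_mem (hR₀U _ (hwU _)) (hvU _)
    have horth : ∀ i : Fin D, ⟪z, v i.castSucc⟫ = 0 := by
      intro i
      rw [hz, inner_sub_left]
      have h1 : ⟪w', v i.castSucc⟫ = 0 := by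
        rw [hw', ← hR₀ i, LinearIsometryEquiv.inner_map_map]
        exact hw.2 (Fin.castSucc_lt_last i).ne'
      have h2 : ⟪v (Fin.last D), v i.castSucc⟫ = 0 := hv.2 (Fin.castSucc_lt_last i).ne'
      rw [h1, h2, sub_zero]
    by_cases hz0 : z = 0
    · refine ⟨R₀, Fin.snoc u₀ 0, ?_, ?_, ?_, hf₀⟩
      · intro k
        refine Fin.lastCases ?_ (fun i => ?_) k
        · simp
        · simpa using hu₀ i
      · intro k
        refine Fin.lastCases ?_ (fun i => ?_) k
        · exact sub_eq_zero.mp hz0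
        · exact hR₀ i
      · intro x
        obtain ⟨b, hb, hbx⟩ := hb₀ x
        refine ⟨Fin.snoc b 0, ?_, ?_⟩
        · intro k
          refine Fin.lastCases ?_ (fun i => ?_) k
          · simp
          · simpa using hb i
        · rw [Fin.sum_univ_castSucc]
          simpa using hbx
    · have hz' : ‖z‖ ≠ 0 := norm_ne_zero_iff.mpr hz0
      let u : H := ‖z‖⁻¹ • z
      have hu1 : ‖u‖ = 1 := by
        simp only [u]
        rw [norm_smul, norm_inv, norm_norm, inv_mul_cancel₀ hz']
      let R₁ : H ≃ₗᵢ[ℝ] H := (ℝ ∙ z)ᗮ.reflection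
      have hR₁ : ∀ x, R₁ x = x + (-2 * ⟪u, x⟫) • u := fun x => refl_form z hz0 x
      refine ⟨R₀.trans R₁, Fin.snoc u₀ u, ?_, ?_, ?_, ?_⟩
      · intro k
        refine Fin.lastCases ?_ (fun i => ?_) k
        · simp only [Fin.snoc_last]
          exact ⟨U.smul_mem _ hzU, hu1.le⟩
        · simpa using hu₀ i
      · intro k
        refine Fin.lastCases ?_ (fun i => ?_) k
        · exact Submodule.reflection_sub hnorm
        · rw [LinearIsometryEquiv.trans_apply, hR₀ i, hR₁]
          have : ⟪u, v i.castSucc⟫ = 0 := by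
            simp only [u]
            rw [inner_smul_left, horth i, mul_zero]
          rw [this]; simp
      · intro x
        obtain ⟨b, hb, hbx⟩ := hb₀ x
        refine ⟨Fin.snoc b (-2 * ⟪u, R₀ x⟫), ?_, ?_⟩
        · intro k
          refine Fin.lastCases ?_ (fun i => ?_) k
          · simp only [Fin.snoc_last]
            rw [abs_mul, abs_neg, abs_two]
            have := abs_real_inner_le_norm u (R₀ x)
            rw [hu1, one_mul, LinearIsometryEquiv.norm_map] at this
            linarith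
          · simpa using hb i
        · rw [Fin.sum_univ_castSucc, LinearIsometryEquiv.trans_apply, hR₁]
          simp only [Fin.snoc_castSucc, Fin.snoc_last]
          rw [← add_assoc, ← hbx]
      · intro x hx
        rw [LinearIsometryEquiv.trans_apply, hf₀ x hx, hR₁]
        have : ⟪u, x⟫ = 0 := by
          simp only [u]
          rw [inner_smul_left, (Submodule.mem_orthogonal U x).mp hx z hzU, mul_zero]
        rw [this]; simp

end Pool.Agent.Ban
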