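import Pool.Agent.Ban.Delta

set_option autoImplicit false
open Set Filter Topology
open scoped RealInnerProductSpace

namespace Pool.Agent.Ban

variable {H : Type} [NormedAddCommGroup H] [InnerProductSpace ℝ H]
variable {e : ℕ → ℕ → H}

def blk (n S : ℕ) (x : Σ _ : ℕ, ℕ) : ℕ := (x.1 - n) / S

noncomputable def kap (n S : ℕ) (x : Σ _ : ℕ, ℕ) : ℝ :=
  (blk n S x : ℝ) + (2 * (x.2:ℝ) + 1) / 2^(x.1+1)

noncomputable def ww (e : ℕ → ℕ → H) (n n' S i : ℕ) : H :=
  ∑ x ∈ idx n n', if blk n S x = i then (√(S:ℝ))⁻¹ • rr e x.1 x.2 else 0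

theorem filter_blk (n S D i : ℕ) (hS : 0 < S) (hi : i < D) :
    (Finset.Ico n (n+D*S)).filter (fun s => (s - n)/S = i) = Finset.Ico (n+i*S) (n+(i+1)*S) := by
  ext s
  simp only [Finset.mem_filter, Finset.mem_Ico]
  constructor
  · rintro ⟨⟨h1, h2⟩, h3⟩
    rw [Nat.div_eq_iff hS] at h3
    obtain ⟨h3, h4⟩ := h3
    have : (i+1)*S = i*S + S := by ring
    constructor
    · omega
    · omega
  · rintro ⟨h1, h2⟩
    have h5 : (i+1)*S = i*S + S := by ring
    have h6 : (i+1)*S ≤ D*S := Nat.mul_le_mul_right S hi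
    refine ⟨⟨by omega, by omega⟩, ?_⟩
    rw [Nat.div_eq_iff hS]
    constructor
    · omega
    · omega

theorem sum_blk (n S D i : ℕ) (hS : 0 < S) (hi : i < D) :
    ∑ x ∈ idx n (n+D*S), (if blk n S x = i then ((2:ℝ)^x.1)⁻¹ else 0) = S := by
  rw [idx, Finset.sum_sigma]
  have h1 : ∀ s ∈ Finset.Ico n (n+D*S), ∑ j ∈ Finset.range (2^s),
      (if blk n S ⟨s, j⟩ = i then ((2:ℝ)^(⟨s, j⟩ : Σ _ : ℕ, ℕ).1)⁻¹ else 0) =
      if (s - n)/S = i then (1:ℝ) else 0 := by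
    intro s _
    simp only [blk]
    rw [Finset.sum_const, Finset.card_range]
    split_ifs
    · simp
    · simp
  rw [Finset.sum_congr rfl h1, ← Finset.sum_filter, filter_blk n S D i hS hi]
  simp
  ring_nf
  rw [Nat.add_sub_cancel_left]

theorem ww_rr (he : Dy e) {n n' S i : ℕ} (y : Σ _ : ℕ, ℕ) (hy : y ∈ idx n n') :
    ⟪ww e n n' S i, rr e y.1 y.2⟫ =
      if blk n S y = i then (√(S:ℝ))⁻¹ * ((2:ℝ)^y.1)⁻¹ else 0 := by
  classical
  rw [ww, sum_inner, Finset.sum_eq_single y]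
  · split_ifs
    · rw [inner_smul_left, rr_inner he y y hy hy, if_pos rfl]; simp
    · simp
  · intro x hx hxy
    split_ifs
    · rw [inner_smul_left, rr_inner he x y hx hy, if_neg hxy]; simp
    · simp
  · intro h; exact absurd hy h

theorem ww_ww (he : Dy e) {n S D i k : ℕ} (hS : 0 < S) (hi : i < D) :
    ⟪ww e n (n+D*S) S i, ww e n (n+D*S) S k⟫ = if i = k then 1 else 0 := by
  classical
  have hSr : (0:ℝ) < S := Nat.cast_pos.mpr hS
  have hsq : √(S:ℝ) ≠ 0 := (Real.sqrt_pos.mpr hSr).ne'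
  conv_lhs => rw [ww.eq_1 e n (n+D*S) S k]
  rw [inner_sum]
  have h1 : ∀ y ∈ idx n (n+D*S),
      ⟪ww e n (n+D*S) S i, if blk n S y = k then (√(S:ℝ))⁻¹ • rr e y.1 y.2 else 0⟫ =
      if i = k then (S:ℝ)⁻¹ * (if blk n S y = i then ((2:ℝ)^y.1)⁻¹ else 0) else 0 := by
    intro y hy
    by_cases h1 : blk n S y = k
    · rw [if_pos h1, inner_smul_right, ww_rr he y hy]
      by_cases h2 : i = k
      · subst h2
        rw [if_pos h1, if_pos rfl, if_pos h1]
        have : (√(S:ℝ))⁻¹ * (√(S:ℝ))⁻¹ = (S:ℝ)⁻¹ := by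
          rw [← mul_inv, Real.mul_self_sqrt hSr.le]
        rw [← mul_assoc, this]
      · rw [if_neg (by rw [h1]; exact fun h => h2 h.symm), if_neg h2, mul_zero]
    · rw [if_neg h1, inner_zero_right]
      split_ifs with h2 h3
      · exact absurd (h3.trans h2) h1
      · simp
      · rfl
  rw [Finset.sum_congr rfl h1]
  by_cases h2 : i = k
  · simp only [if_pos h2]
    rw [← Finset.mul_sum, sum_blk n S D i hS hi]
    exact inv_mul_cancel₀ hSr.ne'
  · simp only [if_neg h2]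
    simp

theorem ww_mem (he : Dy e) {n n' S i : ℕ} : ww e n n' S i ∈ UU e n n' := by
  apply Submodule.sum_mem
  intro x hx
  split_ifs
  · apply Submodule.smul_mem
    obtain ⟨⟨h1, h2⟩, h3⟩ := mem_idx.mp hx
    exact ⟨W_mono he (show x.1 + 1 ≤ n' from h2) (rr_mem h3), rr_orth he h3 h1⟩
  · exact Submodule.zero_mem _

theorem hh_mem (he : Dy e) {n n' : ℕ} (x : Σ _ : ℕ, ℕ) (hx : x ∈ idx n n') :
    hh e x ∈ UU e n n' := by
  obtain ⟨⟨h1, h2⟩, h3⟩ := mem_idx.mp hx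
  exact Submodule.smul_mem _ _
    ⟨W_mono he (show x.1 + 1 ≤ n' from h2) (rr_mem h3), rr_orth he h3 h1⟩

def Good (e : ℕ → ℕ → H) (n : ℕ) (φ : ℕ → H) : Prop :=
  (∀ i j, i < 2^n → j < 2^n → ⟪φ i, φ j⟫ = if i = j then 1 else 0) ∧ (∀ i, i < 2^n → φ i ∈ W e n)

theorem step_abs (he : Dy e) (hd : ∀ f : H, (∀ n j, j < 2^n → ⟪e n j, f⟫ = 0) → f = 0)
    (V : Submodule ℝ H) [FiniteDimensional ℝ V] (hV : ∀ m, ∀ q ∈ V, q ∈ W e m → q = 0)
    (M : ℝ) (D : ℕ) (hD : Module.finrank ℝ V < D) (n : ℕ) (φ : ℕ → H) (hφ : Good e n φ) :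
    ∃ (S D' : ℕ) (_ : 0 < S) (_ : D' ≤ D) (g : Fin (2^(n+D*S) - 2^n) ≃ idx n (n+D*S))
      (φ' : ℕ → H) (u : Fin D' → H),
      Monotone ((fun x : idx n (n+D*S) => kap n S x) ∘ g) ∧ (∀ i, i < 2^n → φ' i = φ i) ∧
      Good e (n+D*S) φ' ∧ (∀ k, ‖u k‖ ≤ 1) ∧
      ∀ q ∈ V, ‖q‖ = 1 → ∃ c : ℕ → ℝ, (∃ i < D, M ≤ |c i| * √(S:ℝ) / 2) ∧
        ∀ P : Finset (Fin (2^(n+D*S) - 2^n)), ∃ β : Fin D' → ℝ, (∀ k, |β k| ≤ 2) ∧
          ∑ j ∈ P, ⟪q, φ' (2^n+j)⟫ • φ' (2^n+j) =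
          ∑ j ∈ P, (c (blk n S (g j)) * (√(S:ℝ))⁻¹) • rr e (g j : Σ _ : ℕ, ℕ).1 (g j : Σ _ : ℕ, ℕ).2
            + ∑ k, β k • u k := by
  classical
  obtain ⟨m₀, δ, hδ, hδm⟩ := exists_delta he hd V hV n
  have hD0 : 0 < D := lt_of_le_of_lt (Nat.zero_le _) hD
  have hDr : (0:ℝ) < D := Nat.cast_pos.mpr hD0
  -- choose S
  obtain ⟨S, hS0, hSm, hSM⟩ : ∃ S : ℕ, 0 < S ∧ m₀ ≤ S ∧ M ≤ (δ / √(D:ℝ)) * √(S:ℝ) / 2 := by
    have h1 : Tendsto (fun S : ℕ => (δ / √(D:ℝ)) * √(S:ℝ) / 2) atTop atTop := by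
      have h2 : Tendsto (fun S : ℕ => √(S:ℝ)) atTop atTop :=
        Real.tendsto_sqrt_atTop.comp tendsto_natCast_atTop_atTop
      exact (h2.const_mul_atTop (div_pos hδ (Real.sqrt_pos.mpr hDr))).atTop_div_const two_pos
    obtain ⟨S, hS⟩ := ((h1.eventually_ge_atTop M).and (eventually_ge_atTop (max 1 m₀))).exists
    exact ⟨S, lt_of_lt_of_le one_pos ((le_max_left _ _).trans hS.2), (le_max_right _ _).trans hS.2, hS.1⟩
  have hSr : (0:ℝ) < S := Nat.cast_pos.mpr hS0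
  set n' := n + D*S with hn'
  have hn'm : m₀ ≤ n' := by
    have : S ≤ D*S := Nat.le_mul_of_pos_left S hD0
    omega
  have hnn' : n ≤ n' := by omega
  set U := UU e n n' with hU
  let P := U.starProjection
  let V' : Submodule ℝ H := V.map (P : H →ₗ[ℝ] H)
  have hV'U : V' ≤ U := by
    rintro _ ⟨q, _, rfl⟩
    exact Submodule.starProjection_apply_mem _ _
  set D' := Module.finrank ℝ V' with hD'
  have hD'D : D' ≤ D := (Submodule.finrank_map_le _ _).trans hD.le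
  let vb := stdOrthonormalBasis ℝ V'
  let v : Fin D' → H := fun i => (vb i : H)
  have hvo : Orthonormal ℝ v := by
    have := vb.orthonormal.comp_linearIsometry V'.subtypeₗᵢ
    exact this
  have hvU : ∀ i, v i ∈ U := fun i => hV'U (vb i).2
  let w : Fin D' → H := fun i => ww e n n' S i
  have hwo : Orthonormal ℝ w := by
    rw [orthonormal_iff_ite]
    intro i k
    have := ww_ww he (n := n) (k := (k:ℕ)) hS0 (lt_of_lt_of_le i.2 hD'D)
    simp only [w, hn']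
    rw [this]
    by_cases h : i = k
    · subst h; simp
    · rw [if_neg h, if_neg (fun h' => h (Fin.ext h'))]
  have hwU : ∀ i, w i ∈ U := fun i => ww_mem he
  obtain ⟨R, u, hu, hRw, hRx, hRU⟩ := rot U D' w v hwo hvo hwU hvU
  have hRmem : ∀ x ∈ U, R x ∈ U := by
    intro x hx
    obtain ⟨b, _, hb⟩ := hRx x
    rw [hb]
    exact U.add_mem hx (U.sum_mem fun k _ => U.smul_mem _ (hu k).1)
  obtain ⟨g, hg⟩ := exists_enum (ι := idx n n') (2^n' - 2^n)
    (by rw [Fintype.card_coe, card_idx hnn']) (fun x => kap n S x)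
  let φ' : ℕ → H := fun j => if j < 2^n then φ j else
    if h : j - 2^n < 2^n' - 2^n then R (hh e (g ⟨j - 2^n, h⟩)) else 0
  have hφ'1 : ∀ i, i < 2^n → φ' i = φ i := fun i hi => if_pos hi
  have hφ'2 : ∀ j : Fin (2^n' - 2^n), φ' (2^n + j) = R (hh e (g j)) := by
    intro j
    have h1 : ¬ (2^n + (j:ℕ) < 2^n) := by omega
    have h2 : 2^n + (j:ℕ) - 2^n < 2^n' - 2^n := by have := j.2; omega
    simp only [φ']
    rw [if_neg h1, dif_pos h2]
    congr 3
    exact congrArg g (Fin.ext (by simp))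
  have hpow : 2^n ≤ 2^n' := Nat.pow_le_pow_right (by norm_num) hnn'
  have hcase : ∀ i : ℕ, i < 2^n' → i < 2^n ∨ ∃ j : Fin (2^n' - 2^n), i = 2^n + (j : ℕ) := by
    intro i hi
    by_cases h : i < 2^n
    · exact Or.inl h
    · exact Or.inr ⟨⟨i - 2^n, by omega⟩, by simp; omega⟩
  have hoU : ∀ i, i < 2^n → φ i ∈ Uᗮ := by
    intro i hi
    rw [Submodule.mem_orthogonal]
    intro x hx
    exact (Submodule.mem_orthogonal' _ _).mp hx.2 _ (hφ.2 i hi)
  have hgood : Good e n' φ' := by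
    constructor
    · intro i j hi hj
      rcases hcase i hi with h1 | ⟨i', rfl⟩ <;> rcases hcase j hj with h2 | ⟨j', rfl⟩
      · rw [hφ'1 i h1, hφ'1 j h2]; exact hφ.1 i j h1 h2
      · rw [hφ'1 i h1, hφ'2 j', if_neg (by omega)]
        exact (Submodule.mem_orthogonal' _ _).mp (hoU i h1) _ (hRmem _ (hh_mem he _ (g j').2))
      · rw [hφ'1 j h2, hφ'2 i', if_neg (by omega)]
        exact (Submodule.mem_orthogonal _ _).mp (hoU j h2) _ (hRmem _ (hh_mem he _ (g i').2))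
      · rw [hφ'2, hφ'2, LinearIsometryEquiv.inner_map_map]
        have := (orthonormal_iff_ite.mp (hh_orthonormal he n n')) (g i') (g j')
        rw [this]
        by_cases h : i' = j'
        · subst h; simp
        · rw [if_neg (fun h' => h (g.injective h')), if_neg]
          intro h'
          exact h (Fin.ext (by omega))
    · intro i hi
      rcases hcase i hi with h1 | ⟨i', rfl⟩
      · rw [hφ'1 i h1]; exact W_mono he hnn' (hφ.2 i h1)
      · rw [hφ'2]; exact (hRmem _ (hh_mem he _ (g i').2)).1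
  refine ⟨S, D', hS0, hD'D, g, φ', u, hg, hφ'1, hgood, fun k => (hu k).2, ?_⟩
  intro q hq hq1
  have hPq : P q ∈ V' := ⟨q, hq, rfl⟩
  let c : ℕ → ℝ := fun i => if h : i < D' then ⟪v ⟨i, h⟩, P q⟫ else 0
  have hsum : P q = ∑ i : Fin D', c i • v i := by
    have h1 := vb.sum_repr' ⟨P q, hPq⟩
    have h2 := congrArg (fun z : V' => (z : H)) h1
    simp only at h2
    rw [← h2]
    rw [Submodule.coe_sum]
    refine Finset.sum_congr rfl fun i _ => ?_
    rw [Submodule.coe_smul]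
    simp only [c, v, Fin.is_lt, dif_pos, Submodule.coe_inner]
    rfl
  have hnorm : δ ≤ ‖P q‖ := hδm n' hn'm q hq hq1
  have hPq1 : ‖P q‖ ≤ 1 := by
    have := Submodule.norm_starProjection_apply_le U q
    rw [hq1] at this; exact this
  have hnsq : ‖P q‖^2 = ∑ i : Fin D', (c i)^2 := by
    rw [hsum, ← real_inner_self_eq_norm_sq, hvo.inner_sum]
    refine Finset.sum_congr rfl fun i _ => ?_
    simp [sq]
  -- large coefficient
  have hlarge : ∃ i < D, δ / √(D:ℝ) ≤ |c i| := by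
    by_contra hcon
    push Not at hcon
    have h1 : ∀ i : Fin D', (c i)^2 ≤ δ^2 / D := by
      intro i
      have h2 := hcon i (lt_of_lt_of_le i.2 hD'D)
      have h3 : |c i|^2 ≤ (δ / √(D:ℝ))^2 := by
        apply pow_le_pow_left₀ (abs_nonneg _) h2.le
      rw [sq_abs, div_pow, Real.sq_sqrt hDr.le] at h3
      exact h3
    have h4 : ‖P q‖^2 ≤ D' * (δ^2/D) := by
      rw [hnsq]
      calc ∑ i : Fin D', (c i)^2 ≤ ∑ i : Fin D', δ^2/D := Finset.sum_le_sum fun i _ => h1 i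
        _ = D' * (δ^2/D) := by simp
    have h5 : (D':ℝ) < D := by
      have : D' < D := lt_of_le_of_lt (Submodule.finrank_map_le _ _) hD
      exact_mod_cast this
    have h6 : (D':ℝ) * (δ^2/D) < δ^2 := by
      rw [← mul_div_assoc, div_lt_iff₀ hDr, mul_comm]
      exact mul_lt_mul_of_pos_left h5 (by positivity)
    have h7 : δ^2 ≤ ‖P q‖^2 := pow_le_pow_left₀ hδ.le hnorm 2
    linarith
  refine ⟨c, ?_, ?_⟩
  · obtain ⟨i, hi, hc⟩ := hlarge
    refine ⟨i, hi, hSM.trans ?_⟩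
    have : 0 ≤ √(S:ℝ) := Real.sqrt_nonneg _
    gcongr
  · intro A
    let z : H := ∑ i : Fin D', c i • w i
    have hRz : R z = P q := by
      simp only [z]
      rw [hsum, map_sum]
      refine Finset.sum_congr rfl fun i _ => ?_
      rw [map_smul, hRw]
    have hz1 : ‖z‖ ≤ 1 := by
      rw [← LinearIsometryEquiv.norm_map R z, hRz]; exact hPq1
    have hzr : ∀ y ∈ idx n n', ⟪z, hh e y⟫ • hh e y = (c (blk n S y) * (√(S:ℝ))⁻¹) • rr e y.1 y.2 := by
      intro y hy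
      have h1 : ⟪z, hh e y⟫ = √((2:ℝ)^y.1) * (c (blk n S y) * ((√(S:ℝ))⁻¹ * ((2:ℝ)^y.1)⁻¹)) := by
        simp only [z, hh]
        rw [inner_smul_right, sum_inner]
        congr 1
        have h2 : ∀ i : Fin D', ⟪c i • w i, rr e y.1 y.2⟫ =
            if blk n S y = i then c i * ((√(S:ℝ))⁻¹ * ((2:ℝ)^y.1)⁻¹) else 0 := by
          intro i
          rw [inner_smul_left]
          simp only [w]
          rw [ww_rr he y hy]
          split_ifs <;> simp
        rw [Finset.sum_congr rfl fun i _ => h2 i]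
        by_cases hb : blk n S y < D'
        · rw [Finset.sum_eq_single ⟨blk n S y, hb⟩]
          · simp
          · intro i _ hi
            rw [if_neg]
            intro h; exact hi (Fin.ext h.symm)
          · intro h; exact absurd (Finset.mem_univ _) h
        · have hc0 : c (blk n S y) = 0 := by simp only [c]; rw [dif_neg hb]
          rw [hc0, zero_mul]
          apply Finset.sum_eq_zero
          intro i _
          rw [if_neg]
          intro h; rw [h] at hb; exact hb i.2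
      rw [h1]
      simp only [hh]
      rw [smul_smul]
      congr 1
      have hp : (0:ℝ) < 2^y.1 := by positivity
      have h3 : √((2:ℝ)^y.1) * √((2:ℝ)^y.1) = 2^y.1 := Real.mul_self_sqrt hp.le
      calc √((2:ℝ)^y.1) * (c (blk n S y) * ((√(S:ℝ))⁻¹ * ((2:ℝ)^y.1)⁻¹)) * √((2:ℝ)^y.1)
          = (√((2:ℝ)^y.1) * √((2:ℝ)^y.1)) * ((2:ℝ)^y.1)⁻¹ * (c (blk n S y) * (√(S:ℝ))⁻¹) := by ring
        _ = c (blk n S y) * (√(S:ℝ))⁻¹ := by rw [h3, mul_inv_cancel₀ hp.ne', one_mul]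
    let y : H := ∑ j ∈ A, ⟪z, hh e (g j)⟫ • hh e (g j)
    have hy1 : ‖y‖ ≤ 1 := by
      have horth : Orthonormal ℝ (fun j : Fin (2^n' - 2^n) => hh e (g j)) :=
        (hh_orthonormal he n n').comp g g.injective
      have h1 : ‖y‖^2 = ∑ j ∈ A, ⟪z, hh e (g j)⟫^2 := by
        rw [← real_inner_self_eq_norm_sq, horth.inner_sum]
        refine Finset.sum_congr rfl fun i _ => ?_
        simp [sq]
      have h2 : ∑ j ∈ A, ‖⟪hh e (g j), z⟫‖^2 ≤ ‖z‖^2 := horth.sum_inner_products_le z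
      have h3 : ∑ j ∈ A, ‖⟪hh e (g j), z⟫‖^2 = ∑ j ∈ A, ⟪z, hh e (g j)⟫^2 := by
        refine Finset.sum_congr rfl fun i _ => ?_
        rw [real_inner_comm, Real.norm_eq_abs, sq_abs]
      rw [h3, ← h1] at h2
      have h4 : ‖y‖ ≤ ‖z‖ := by
        exact (pow_le_pow_iff_left₀ (norm_nonneg _) (norm_nonneg _) two_ne_zero).mp h2
      exact h4.trans hz1
    obtain ⟨β, hβ, hRy⟩ := hRx y
    refine ⟨β, fun k => (hβ k).trans (by linarith), ?_⟩
    have h1 : ∑ j ∈ A, ⟪q, φ' (2^n+j)⟫ • φ' (2^n+j) = R y := by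
      simp only [y]
      rw [map_sum]
      refine Finset.sum_congr rfl fun j _ => ?_
      rw [map_smul, hφ'2]
      congr 1
      have h2 : R (hh e (g j)) ∈ U := hRmem _ (hh_mem he _ (g j).2)
      have h3 : ⟪q, R (hh e (g j))⟫ = ⟪P q, R (hh e (g j))⟫ := by
        have h4 : q - P q ∈ Uᗮ := Submodule.sub_starProjection_mem_orthogonal q
        have h5 := (Submodule.mem_orthogonal' _ _).mp h4 _ h2
        rw [inner_sub_left, sub_eq_zero] at h5
        exact h5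
      rw [h3, ← hRz, LinearIsometryEquiv.inner_map_map]
    rw [h1, hRy]
    congr 1
    simp only [y]
    refine Finset.sum_congr rfl fun j _ => ?_
    exact hzr _ (g j).2

end Pool.Agent.Ban
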