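import Pool.Agent.Ban.Conc

set_option autoImplicit false
open Set Filter Topology MeasureTheory
open scoped RealInnerProductSpace ENNReal

namespace Pool.Agent.Ban

noncomputable def mid (x : Σ _ : ℕ, ℕ) : ℝ := (2 * (x.2:ℝ) + 1) / 2^(x.1+1)

theorem mid_pos (x : Σ _ : ℕ, ℕ) : 0 < mid x := by unfold mid; positivity

theorem mid_lt {x : Σ _ : ℕ, ℕ} (h : x.2 < 2^x.1) : mid x < 1 := by
  unfold mid
  rw [div_lt_one (by positivity)]
  have := lt2 h
  exact_mod_cast this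

theorem kap_eq (n S : ℕ) (x : Σ _ : ℕ, ℕ) : kap n S x = blk n S x + mid x := rfl

noncomputable def od (s : ℕ) (t : ℝ) : ℝ := if fl (s+1) t = 2 * fl s t + 1 then 1 else 0

theorem level_sum_le (s : ℕ) {t : ℝ} (ht : t ∈ Set.Ico (0:ℝ) 1) :
    ∑ j ∈ Finset.range (2^s), (if mid ⟨s, j⟩ ≤ t then RF s j t else 0) = - th t * od s t := by
  classical
  have hfl := fl_succ s t
  have hfls : fl s t < 2^s := by
    unfold fl
    rw [Nat.floor_lt (mul_nonneg (by positivity) ht.1)]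
    have hp : (0:ℝ) < 2^s := by positivity
    push_cast
    nlinarith [ht.2]
  rw [Finset.sum_eq_single (fl s t)]
  · by_cases h1 : fl (s+1) t = 2 * fl s t + 1
    · have h2 : mid ⟨s, fl s t⟩ ≤ t := by
        have := (fl_iff (n := s+1) (j := 2 * fl s t + 1) ht.1).mp h1
        unfold mid
        have h3 := this.1
        push_cast at h3
        exact h3
      rw [if_pos h2]
      unfold RF EE od
      rw [if_neg (by omega), if_pos h1, if_pos h1]; ring
    · have h4 : fl (s+1) t = 2 * fl s t := by omega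
      have h2 : ¬ mid ⟨s, fl s t⟩ ≤ t := by
        have := (fl_iff (n := s+1) (j := 2 * fl s t) ht.1).mp h4
        unfold mid
        have h3 := this.2
        push_cast at h3
        exact not_le.mpr h3
      rw [if_neg h2]
      unfold od
      rw [if_neg h1, mul_zero]
  · intro j _ hj
    split_ifs
    · unfold RF EE
      rw [if_neg (by omega), if_neg (by omega), sub_zero]
    · rfl
  · intro h; exact absurd (Finset.mem_range.mpr hfls) h

theorem level_sum_gt (s : ℕ) {t : ℝ} (ht : t ∈ Set.Ico (0:ℝ) 1) :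
    ∑ j ∈ Finset.range (2^s), (if t < mid ⟨s, j⟩ then RF s j t else 0) = th t * (1 - od s t) := by
  classical
  have hfl := fl_succ s t
  have hfls : fl s t < 2^s := by
    unfold fl
    rw [Nat.floor_lt (mul_nonneg (by positivity) ht.1)]
    have hp : (0:ℝ) < 2^s := by positivity
    push_cast
    nlinarith [ht.2]
  rw [Finset.sum_eq_single (fl s t)]
  · by_cases h1 : fl (s+1) t = 2 * fl s t + 1
    · have h2 : mid ⟨s, fl s t⟩ ≤ t := by
        have := (fl_iff (n := s+1) (j := 2 * fl s t + 1) ht.1).mp h1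
        unfold mid
        have h3 := this.1
        push_cast at h3
        exact h3
      rw [if_neg (not_lt.mpr h2)]
      unfold od
      rw [if_pos h1]; ring
    · have h4 : fl (s+1) t = 2 * fl s t := by omega
      have h2 : t < mid ⟨s, fl s t⟩ := by
        have := (fl_iff (n := s+1) (j := 2 * fl s t) ht.1).mp h4
        unfold mid
        have h3 := this.2
        push_cast at h3
        exact h3
      rw [if_pos h2]
      unfold RF EE od
      rw [if_pos h4, if_neg h1, if_neg h1]; ring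
  · intro j _ hj
    split_ifs
    · unfold RF EE
      rw [if_neg (by omega), if_neg (by omega), sub_zero]
    · rfl
  · intro h; exact absurd (Finset.mem_range.mpr hfls) h

theorem blk_sum_le (n S D i : ℕ) (hS : 0 < S) (hi : i < D) {t : ℝ} (ht : t ∈ Set.Ico (0:ℝ) 1) :
    ∑ x ∈ idx n (n+D*S), (if blk n S x = i ∧ mid x ≤ t then RF x.1 x.2 t else 0) =
      - th t * ∑ s ∈ Finset.Ico (n+i*S) (n+(i+1)*S), od s t := by
  rw [idx, Finset.sum_sigma, ← filter_blk n S D i hS hi, Finset.sum_filter, Finset.mul_sum]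
  refine Finset.sum_congr rfl fun s _ => ?_
  by_cases h : (s - n)/S = i
  · rw [if_pos h, ← level_sum_le s ht]
    refine Finset.sum_congr rfl fun j _ => ?_
    simp only [blk, h, true_and]
  · rw [if_neg h, mul_zero]
    apply Finset.sum_eq_zero
    intro j _
    rw [if_neg]
    rintro ⟨h1, _⟩
    exact h h1

theorem blk_sum_gt (n S D i : ℕ) (hS : 0 < S) (hi : i < D) {t : ℝ} (ht : t ∈ Set.Ico (0:ℝ) 1) :
    ∑ x ∈ idx n (n+D*S), (if blk n S x = i ∧ t < mid x then RF x.1 x.2 t else 0) =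
      th t * ∑ s ∈ Finset.Ico (n+i*S) (n+(i+1)*S), (1 - od s t) := by
  rw [idx, Finset.sum_sigma, ← filter_blk n S D i hS hi, Finset.sum_filter, Finset.mul_sum]
  refine Finset.sum_congr rfl fun s _ => ?_
  by_cases h : (s - n)/S = i
  · rw [if_pos h, ← level_sum_gt s ht]
    refine Finset.sum_congr rfl fun j _ => ?_
    simp only [blk, h, true_and]
  · rw [if_neg h, mul_zero]
    apply Finset.sum_eq_zero
    intro j _
    rw [if_neg]
    rintro ⟨h1, _⟩
    exact h h1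

/-- For every point there is an interval of indices with a large partial sum. -/
theorem osc (n S D i : ℕ) (hS : 0 < S) (hi : i < D) (L : ℕ) (g : Fin L ≃ idx n (n+D*S))
    (hg : Monotone ((fun x : idx n (n+D*S) => kap n S x) ∘ g)) (c : ℕ → ℝ)
    {t : ℝ} (ht : t ∈ Set.Ico (0:ℝ) 1) :
    ∃ a b : ℕ, a ≤ b ∧ b ≤ L ∧
      |c i| * √(S:ℝ) / 2 ≤ |∑ j ∈ Finset.univ.filter (fun j : Fin L => a ≤ (j:ℕ) ∧ (j:ℕ) < b),
        (c (blk n S (g j)) * (√(S:ℝ))⁻¹) * RF (g j : Σ _ : ℕ, ℕ).1 (g j : Σ _ : ℕ, ℕ).2 t| := by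
  classical
  have hSr : (0:ℝ) < S := Nat.cast_pos.mpr hS
  have hsq : 0 < √(S:ℝ) := Real.sqrt_pos.mpr hSr
  have hmid : ∀ x : idx n (n+D*S), 0 < mid x ∧ mid x < 1 := fun x =>
    ⟨mid_pos _, mid_lt (mem_idx.mp x.2).2⟩
  obtain ⟨a₁, ha₁, h1⟩ := exists_cut (fun j : Fin L => kap n S (g j) < i)
    (fun x y hxy hy => lt_of_le_of_lt (hg hxy) hy)
  obtain ⟨a₂, ha₂, h2⟩ := exists_cut (fun j : Fin L => kap n S (g j) ≤ i + t)
    (fun x y hxy hy => (hg hxy).trans hy)
  obtain ⟨a₃, ha₃, h3⟩ := exists_cut (fun j : Fin L => kap n S (g j) < i + 1)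
    (fun x y hxy hy => lt_of_le_of_lt (hg hxy) hy)
  have hle12 : ∀ j : Fin L, (j:ℕ) < a₁ → (j:ℕ) < a₂ := by
    intro j hj
    rw [← h1] at hj
    rw [← h2]
    exact hj.le.trans (by linarith [ht.1])
  have hle23 : ∀ j : Fin L, (j:ℕ) < a₂ → (j:ℕ) < a₃ := by
    intro j hj
    rw [← h2] at hj
    rw [← h3]
    exact lt_of_le_of_lt hj (by linarith [ht.2])
  have h12 : a₁ ≤ a₂ := by
    by_contra h
    push Not at h
    exact lt_irrefl _ (hle12 ⟨a₂, by omega⟩ h)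
  have h23 : a₂ ≤ a₃ := by
    by_contra h
    push Not at h
    exact lt_irrefl _ (hle23 ⟨a₃, by omega⟩ h)
  have key1 : ∀ j : Fin L, (a₁ ≤ (j:ℕ) ∧ (j:ℕ) < a₂) ↔ (blk n S (g j) = i ∧ mid (g j) ≤ t) := by
    intro j
    rw [← h2, ← not_lt, ← h1, not_lt, kap_eq]
    obtain ⟨hm0, hm1⟩ := hmid (g j)
    constructor
    · rintro ⟨p1, p2⟩
      have hb1 : (blk n S (g j) : ℝ) < i + 1 := by linarith [ht.2]
      have hb2 : (i:ℝ) < blk n S (g j) + 1 := by linarith
      have hb3 : blk n S (g j) < i + 1 := by exact_mod_cast hb1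
      have hb4 : i < blk n S (g j) + 1 := by exact_mod_cast hb2
      have hb5 : blk n S (g j) = i := by omega
      refine ⟨hb5, ?_⟩
      rw [hb5] at p2
      linarith
    · rintro ⟨p1, p2⟩
      rw [p1]
      constructor <;> linarith
  have key2 : ∀ j : Fin L, (a₂ ≤ (j:ℕ) ∧ (j:ℕ) < a₃) ↔ (blk n S (g j) = i ∧ t < mid (g j)) := by
    intro j
    rw [← h3, ← not_lt, ← h2, not_le, kap_eq]
    obtain ⟨hm0, hm1⟩ := hmid (g j)
    constructor
    · rintro ⟨p1, p2⟩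
      have hb1 : (blk n S (g j) : ℝ) < i + 1 := by linarith
      have hb2 : (i:ℝ) < blk n S (g j) + 1 := by linarith [ht.1]
      have hb3 : blk n S (g j) < i + 1 := by exact_mod_cast hb1
      have hb4 : i < blk n S (g j) + 1 := by exact_mod_cast hb2
      have hb5 : blk n S (g j) = i := by omega
      refine ⟨hb5, ?_⟩
      rw [hb5] at p1
      linarith
    · rintro ⟨p1, p2⟩
      rw [p1]
      constructor <;> linarith
  have hsumg : ∀ f : (Σ _ : ℕ, ℕ) → ℝ, ∑ x ∈ idx n (n+D*S), f x = ∑ j : Fin L, f (g j) := by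
    intro f
    rw [Equiv.sum_comp g (fun x : idx n (n+D*S) => f x)]
    exact (Finset.sum_coe_sort _ f).symm
  have hsum1 : ∑ j ∈ Finset.univ.filter (fun j : Fin L => a₁ ≤ (j:ℕ) ∧ (j:ℕ) < a₂),
        (c (blk n S (g j)) * (√(S:ℝ))⁻¹) * RF (g j : Σ _ : ℕ, ℕ).1 (g j : Σ _ : ℕ, ℕ).2 t =
        (c i * (√(S:ℝ))⁻¹) * (- th t * ∑ s ∈ Finset.Ico (n+i*S) (n+(i+1)*S), od s t) := by
    rw [← blk_sum_le n S D i hS hi ht, Finset.sum_filter, Finset.mul_sum, hsumg]
    refine Finset.sum_congr rfl fun j _ => ?_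
    by_cases h : blk n S (g j) = i ∧ mid (g j) ≤ t
    · rw [if_pos h, if_pos ((key1 j).mpr h), h.1]
    · rw [if_neg h, if_neg (fun h' => h ((key1 j).mp h')), mul_zero]
  have hsum2 : ∑ j ∈ Finset.univ.filter (fun j : Fin L => a₂ ≤ (j:ℕ) ∧ (j:ℕ) < a₃),
        (c (blk n S (g j)) * (√(S:ℝ))⁻¹) * RF (g j : Σ _ : ℕ, ℕ).1 (g j : Σ _ : ℕ, ℕ).2 t =
        (c i * (√(S:ℝ))⁻¹) * (th t * ∑ s ∈ Finset.Ico (n+i*S) (n+(i+1)*S), (1 - od s t)) := by
    rw [← blk_sum_gt n S D i hS hi ht, Finset.sum_filter, Finset.mul_sum, hsumg]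
    refine Finset.sum_congr rfl fun j _ => ?_
    by_cases h : blk n S (g j) = i ∧ t < mid (g j)
    · rw [if_pos h, if_pos ((key2 j).mpr h), h.1]
    · rw [if_neg h, if_neg (fun h' => h ((key2 j).mp h')), mul_zero]
  have htot : ∑ s ∈ Finset.Ico (n+i*S) (n+(i+1)*S), od s t +
      ∑ s ∈ Finset.Ico (n+i*S) (n+(i+1)*S), (1 - od s t) = S := by
    rw [← Finset.sum_add_distrib]
    simp
    ring_nf
    rw [Nat.add_sub_cancel_left]
  have hid : |c i| * √(S:ℝ) / 2 = |c i| * (√(S:ℝ))⁻¹ * ((S:ℝ)/2) := by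
    have h8 : (S:ℝ) * (√(S:ℝ))⁻¹ = √(S:ℝ) := by rw [← div_eq_mul_inv, Real.div_sqrt]
    calc |c i| * √(S:ℝ) / 2 = |c i| * ((S:ℝ) * (√(S:ℝ))⁻¹) / 2 := by rw [h8]
      _ = |c i| * (√(S:ℝ))⁻¹ * ((S:ℝ)/2) := by ring
  rcases le_or_gt ((S:ℝ)/2) (∑ s ∈ Finset.Ico (n+i*S) (n+(i+1)*S), od s t) with h | h
  · refine ⟨a₁, a₂, h12, ha₂, ?_⟩
    rw [hsum1, abs_mul, abs_mul, abs_mul, abs_neg, th_abs, one_mul, abs_inv, abs_of_pos hsq, hid]
    have h5 : (S:ℝ)/2 ≤ |∑ s ∈ Finset.Ico (n+i*S) (n+(i+1)*S), od s t| := h.trans (le_abs_self _)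
    gcongr
  · refine ⟨a₂, a₃, h23, ha₃, ?_⟩
    rw [hsum2, abs_mul, abs_mul, abs_mul, th_abs, one_mul, abs_inv, abs_of_pos hsq, hid]
    have h5 : (S:ℝ)/2 ≤ |∑ s ∈ Finset.Ico (n+i*S) (n+(i+1)*S), (1 - od s t)| := by
      refine le_trans ?_ (le_abs_self _)
      linarith
    gcongr

end Pool.Agent.Ban
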